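import Mathlib

/-! Product Bernoulli measure: one-coordinate disintegration, Efron-Stein inequality,
covariance lower bound for the variance, product formula. -/

namespace Pool.Agent.Lib.MP_eba68f_pr

open MeasureTheory ProbabilityTheory Filter Function Finset
open scoped NNReal ENNReal

noncomputable def qq : ℝ := 1 / 64

lemma qq_pos : 0 < qq := by norm_num [qq]
lemma qq_lt : qq < 1 := by norm_num [qq]

noncomputable def bern : Measure Bool :=
  ENNReal.ofReal qq • Measure.dirac true + ENNReal.ofReal (1 - qq) • Measure.dirac false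

lemma ofReal_add_one : ENNReal.ofReal qq + ENNReal.ofReal (1 - qq) = 1 := by
  rw [← ENNReal.ofReal_add qq_pos.le (by linarith [qq_lt])]; simp

instance bern_prob : IsProbabilityMeasure bern := ⟨by simp [bern, ofReal_add_one]⟩

variable {ι : Type} [DecidableEq ι]

noncomputable def PP (ι : Type) : Measure (ι → Bool) := Measure.infinitePi fun _ : ι => bern

instance PP_prob : IsProbabilityMeasure (PP ι) := by unfold PP; infer_instance

lemma meas_upd (e : ι) (b : Bool) : Measurable fun ω : ι → Bool => update ω e b := by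
  fun_prop

lemma map_upd_pi (e : ι) (b : Bool) (s : Finset ι) (t : ι → Set Bool) :
    (PP ι).map (fun ω => update ω e b) (Set.pi s t) =
      (if e ∈ s then Measure.dirac b (t e) else 1) * ∏ i ∈ s.erase e, bern (t i) := by
  rw [Measure.map_apply (meas_upd e b)
    (MeasurableSet.pi s.countable_toSet fun _ _ => MeasurableSet.of_discrete)]
  by_cases hb : e ∈ s ∧ b ∉ t e
  · have : (fun ω : ι → Bool => update ω e b) ⁻¹' Set.pi s t = ∅ := by
      ext ω
      simp only [Set.mem_preimage, Set.mem_pi, mem_coe, Set.mem_empty_iff_false, iff_false]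
      intro h
      have := h e hb.1
      simp only [update_self] at this
      exact hb.2 this
    rw [this]
    simp [hb.1, hb.2]
  · have : (fun ω : ι → Bool => update ω e b) ⁻¹' Set.pi s t = Set.pi (s.erase e) t := by
      ext ω
      simp only [Set.mem_preimage, Set.mem_pi, mem_coe, mem_erase]
      constructor
      · intro h i hi
        have := h i hi.2
        rwa [update_of_ne hi.1] at this
      · intro h i hi
        by_cases hie : i = e
        · subst hie
          simp only [update_self]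
          by_contra hc
          exact hb ⟨hi, hc⟩
        · rw [update_of_ne hie]; exact h i ⟨hie, hi⟩
    rw [this, PP, Measure.infinitePi_pi _ fun _ _ => MeasurableSet.of_discrete]
    by_cases he : e ∈ s
    · have : b ∈ t e := by
        by_contra hc
        exact hb ⟨he, hc⟩
      simp [he, this]
    · simp [he]

lemma PP_eq (e : ι) : ENNReal.ofReal qq • (PP ι).map (fun ω => update ω e true) +
    ENNReal.ofReal (1 - qq) • (PP ι).map (fun ω => update ω e false) = PP ι := by
  conv_rhs => rw [PP]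
  apply Measure.eq_infinitePi
  intro s t _
  simp only [Measure.add_apply, Measure.smul_apply, smul_eq_mul, map_upd_pi]
  by_cases he : e ∈ s
  · rw [← mul_prod_erase s _ he]
    simp only [he, if_true]
    rw [← mul_assoc, ← mul_assoc, ← add_mul]
    congr 1
  · simp only [he, if_false, one_mul, erase_eq_of_notMem he]
    rw [← add_mul, ofReal_add_one, one_mul]

/-- bounded measurable functions -/
def Nice (f : (ι → Bool) → ℝ) : Prop := Measurable f ∧ ∃ C, ∀ ω, |f ω| ≤ C

omit [DecidableEq ι] in
lemma Nice.integrable' {f : (ι → Bool) → ℝ} (hf : Nice f) (μ : Measure (ι → Bool))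
    [IsFiniteMeasure μ] : Integrable f μ := by
  obtain ⟨hm, C, hC⟩ := hf
  exact Integrable.of_bound hm.aestronglyMeasurable C (ae_of_all _ hC)

omit [DecidableEq ι] in
lemma Nice.integrable {f : (ι → Bool) → ℝ} (hf : Nice f) : Integrable f (PP ι) :=
  hf.integrable' _

omit [DecidableEq ι] in
lemma Nice.const (c : ℝ) : Nice fun _ : ι → Bool => c :=
  ⟨measurable_const, |c|, fun _ => le_rfl⟩

omit [DecidableEq ι] in
lemma Nice.add {f g : (ι → Bool) → ℝ} (hf : Nice f) (hg : Nice g) : Nice fun ω => f ω + g ω := by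
  obtain ⟨hm, C, hC⟩ := hf
  obtain ⟨hm', C', hC'⟩ := hg
  exact ⟨hm.add hm', C + C', fun ω => (abs_add_le _ _).trans (add_le_add (hC ω) (hC' ω))⟩

omit [DecidableEq ι] in
lemma Nice.sub {f g : (ι → Bool) → ℝ} (hf : Nice f) (hg : Nice g) : Nice fun ω => f ω - g ω := by
  obtain ⟨hm, C, hC⟩ := hf
  obtain ⟨hm', C', hC'⟩ := hg
  exact ⟨hm.sub hm', C + C', fun ω => (abs_sub _ _).trans (add_le_add (hC ω) (hC' ω))⟩

omit [DecidableEq ι] in
lemma Nice.mul {f g : (ι → Bool) → ℝ} (hf : Nice f) (hg : Nice g) : Nice fun ω => f ω * g ω := by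
  obtain ⟨hm, C, hC⟩ := hf
  obtain ⟨hm', C', hC'⟩ := hg
  refine ⟨hm.mul hm', C * C', fun ω => ?_⟩
  rw [abs_mul]
  exact mul_le_mul (hC ω) (hC' ω) (abs_nonneg _) ((abs_nonneg _).trans (hC ω))

omit [DecidableEq ι] in
lemma Nice.cmul {f : (ι → Bool) → ℝ} (c : ℝ) (hf : Nice f) : Nice fun ω => c * f ω :=
  (Nice.const c).mul hf

omit [DecidableEq ι] in
lemma Nice.sq {f : (ι → Bool) → ℝ} (hf : Nice f) : Nice fun ω => f ω ^ 2 := by
  simpa only [pow_two] using hf.mul hf

lemma Nice.upd {f : (ι → Bool) → ℝ} (hf : Nice f) (e : ι) (b : Bool) :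
    Nice fun ω => f (update ω e b) := by
  obtain ⟨hm, C, hC⟩ := hf
  exact ⟨hm.comp (meas_upd e b), C, fun ω => hC _⟩

omit [DecidableEq ι] in
lemma Nice.coord (e : ι) (h : Bool → ℝ) : Nice fun ω : ι → Bool => h (ω e) := by
  refine ⟨(Measurable.of_discrete (f := h)).comp (measurable_pi_apply e), |h true| + |h false|,
    fun ω => ?_⟩
  show |h (ω e)| ≤ _
  cases ω e
  · linarith [abs_nonneg (h true)]
  · linarith [abs_nonneg (h false)]

omit [DecidableEq ι] in
lemma Nice.sum {κ : Type} (s : Finset κ) {f : κ → (ι → Bool) → ℝ} (hf : ∀ i ∈ s, Nice (f i)) :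
    Nice fun ω => ∑ i ∈ s, f i ω := by
  classical
  induction s using Finset.induction_on with
  | empty => simpa using Nice.const 0
  | insert a s ha ih =>
    simp only [sum_insert ha]
    exact (hf a (mem_insert_self _ _)).add (ih fun i hi => hf i (mem_insert_of_mem hi))

omit [DecidableEq ι] in
lemma Nice.prod {κ : Type} (s : Finset κ) {f : κ → (ι → Bool) → ℝ} (hf : ∀ i ∈ s, Nice (f i)) :
    Nice fun ω => ∏ i ∈ s, f i ω := by
  classical
  induction s using Finset.induction_on with
  | empty => simpa using Nice.const 1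
  | insert a s ha ih =>
    simp only [prod_insert ha]
    exact (hf a (mem_insert_self _ _)).mul (ih fun i hi => hf i (mem_insert_of_mem hi))

lemma int_upd {f : (ι → Bool) → ℝ} (hf : Nice f) (e : ι) :
    ∫ ω, f ω ∂PP ι =
      ∫ ω, (qq * f (update ω e true) + (1 - qq) * f (update ω e false)) ∂PP ι := by
  have h1 : ∀ b, IsProbabilityMeasure ((PP ι).map fun ω => update ω e b) := fun b =>
    Measure.isProbabilityMeasure_map (meas_upd e b).aemeasurable
  conv_lhs => rw [← PP_eq e]
  rw [integral_add_measure ((hf.integrable' _).smul_measure ENNReal.ofReal_ne_top)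
    ((hf.integrable' _).smul_measure ENNReal.ofReal_ne_top), integral_smul_measure,
    integral_smul_measure, integral_map (meas_upd e _).aemeasurable hf.1.aestronglyMeasurable,
    integral_map (meas_upd e _).aemeasurable hf.1.aestronglyMeasurable,
    integral_add ((hf.upd e true).cmul _).integrable ((hf.upd e false).cmul _).integrable,
    integral_const_mul, integral_const_mul, ENNReal.toReal_ofReal qq_pos.le,
    ENNReal.toReal_ofReal (by linarith [qq_lt]), smul_eq_mul, smul_eq_mul]

/-- discrete derivative -/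
def DD (e : ι) (f : (ι → Bool) → ℝ) (ω : ι → Bool) : ℝ :=
  f (update ω e true) - f (update ω e false)

lemma Nice.dd {f : (ι → Bool) → ℝ} (hf : Nice f) (e : ι) : Nice (DD e f) :=
  (hf.upd e true).sub (hf.upd e false)

lemma DD_upd (e : ι) (f : (ι → Bool) → ℝ) (ω : ι → Bool) (b : Bool) :
    DD e f (update ω e b) = DD e f ω := by simp [DD]

/-- variance as a plain integral -/
noncomputable def Vr (f : (ι → Bool) → ℝ) : ℝ := ∫ ω, (f ω - ∫ ω', f ω' ∂PP ι) ^ 2 ∂PP ι

theorem efron_stein (S : Finset ι) : ∀ {f : (ι → Bool) → ℝ}, Nice f →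
    (∀ ω ω', (∀ e ∈ S, ω e = ω' e) → f ω = f ω') →
    Vr f ≤ qq * (1 - qq) * ∑ e ∈ S, ∫ ω, DD e f ω ^ 2 ∂PP ι := by
  induction S using Finset.induction_on with
  | empty =>
    intro f _ hd
    have : f = fun _ => f fun _ => true := funext fun ω => hd _ _ (by simp)
    rw [this]
    simp [Vr]
  | insert a S ha ih =>
    intro f hf hd
    set g : (ι → Bool) → ℝ :=
      fun ω => qq * f (update ω a true) + (1 - qq) * f (update ω a false) with hg
    have hgn : Nice g := ((hf.upd a true).cmul _).add ((hf.upd a false).cmul _)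
    have hgd : ∀ ω ω', (∀ e ∈ S, ω e = ω' e) → g ω = g ω' := by
      intro ω ω' h
      have : ∀ b, f (update ω a b) = f (update ω' a b) := by
        intro b
        apply hd
        intro e he
        by_cases hea : e = a
        · subst hea; simp
        · rw [update_of_ne hea, update_of_ne hea]
          exact h e ((mem_insert.1 he).resolve_left hea)
      simp only [hg, this]
    have hm : ∫ ω, f ω ∂PP ι = ∫ ω, g ω ∂PP ι := int_upd hf a
    have h1 : Vr f = Vr g + qq * (1 - qq) * ∫ ω, DD a f ω ^ 2 ∂PP ι := by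
      unfold Vr
      rw [int_upd (hf.sub (Nice.const _)).sq a, ← integral_const_mul,
        ← integral_add (hgn.sub (Nice.const _)).sq.integrable ((hf.dd a).sq.cmul _).integrable,
        ← hm]
      congr 1
      ext ω
      simp only [hg, DD]
      ring
    have h2 : ∀ e ∈ S, ∫ ω, DD e g ω ^ 2 ∂PP ι ≤ ∫ ω, DD e f ω ^ 2 ∂PP ι := by
      intro e he
      have hea : e ≠ a := fun h => ha (h ▸ he)
      rw [int_upd (hf.dd e).sq a]
      apply integral_mono (hgn.dd e).sq.integrable
        ((((hf.dd e).sq.upd a true).cmul _).add (((hf.dd e).sq.upd a false).cmul _)).integrable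
      intro ω
      have : DD e g ω = qq * DD e f (update ω a true) + (1 - qq) * DD e f (update ω a false) := by
        simp only [hg, DD, update_comm hea]
        ring
      simp only [this]
      have h3 := mul_nonneg (mul_nonneg qq_pos.le (sub_nonneg.2 qq_lt.le))
        (sq_nonneg (DD e f (update ω a true) - DD e f (update ω a false)))
      nlinarith
    rw [h1, sum_insert ha, mul_add, add_comm]
    have h4 := ih hgn hgd
    have h5 := mul_le_mul_of_nonneg_left (sum_le_sum h2)
      (mul_nonneg qq_pos.le (sub_nonneg.2 qq_lt.le))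
    linarith

noncomputable def XX (e : ι) (ω : ι → Bool) : ℝ := (if ω e then 1 else 0) - qq

omit [DecidableEq ι] in
lemma nice_XX (e : ι) : Nice (XX e) := Nice.coord e fun b => (if b then 1 else 0) - qq

lemma int_mul_XX {f : (ι → Bool) → ℝ} (hf : Nice f) (e : ι) :
    ∫ ω, f ω * XX e ω ∂PP ι = qq * (1 - qq) * ∫ ω, DD e f ω ∂PP ι := by
  rw [int_upd (hf.mul (nice_XX e)) e, ← integral_const_mul]
  congr 1
  ext ω
  simp only [XX, DD, update_self]
  simp
  ring

theorem cov_bound (A : Finset ι) {f : (ι → Bool) → ℝ} (hf : Nice f) :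
    qq * (1 - qq) * (∑ e ∈ A, ∫ ω, DD e f ω ∂PP ι) ^ 2 ≤ A.card * Vr f := by
  rcases A.eq_empty_or_nonempty with rfl | hA
  · simp
  have hc : (0 : ℝ) < A.card := by exact_mod_cast hA.card_pos
  set m := ∫ ω, f ω ∂PP ι with hm
  set c := ∑ e ∈ A, ∫ ω, DD e f ω ∂PP ι with hcdef
  set r := qq * (1 - qq) with hr
  set S : (ι → Bool) → ℝ := fun ω => ∑ e ∈ A, XX e ω with hS
  have hSn : Nice S := Nice.sum A fun e _ => nice_XX e
  have hfm : Nice fun ω => f ω - m := hf.sub (Nice.const _)
  have key : ∀ {h : (ι → Bool) → ℝ}, Nice h →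
      ∫ ω, h ω * S ω ∂PP ι = r * ∑ e ∈ A, ∫ ω, DD e h ω ∂PP ι := by
    intro h hh
    simp only [hS, mul_sum]
    rw [integral_finsetSum _ fun e _ => (hh.mul (nice_XX e)).integrable]
    exact sum_congr rfl fun e _ => int_mul_XX hh e
  have h1 : ∫ ω, (f ω - m) * S ω ∂PP ι = r * c := by
    rw [key hfm]
    congr 1
    refine sum_congr rfl fun e _ => ?_
    congr 1
    ext ω
    simp [DD]
  have h2 : ∫ ω, S ω * S ω ∂PP ι = r * A.card := by
    rw [key hSn]
    congr 1
    have : ∀ e ∈ A, ∫ ω, DD e S ω ∂PP ι = 1 := by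
      intro e he
      have : DD e S = fun _ => 1 := by
        ext ω
        simp only [DD, hS, ← sum_sub_distrib]
        rw [sum_eq_single e]
        · simp [XX]
        · intro b _ hb
          simp [XX, update_of_ne hb]
        · intro h; exact absurd he h
      rw [this]; simp
    rw [sum_congr rfl this]; simp
  set l := c / A.card with hl
  have h3 : 0 ≤ ∫ ω, ((f ω - m) - l * S ω) ^ 2 ∂PP ι := integral_nonneg fun ω => sq_nonneg _
  have h4 : ∫ ω, ((f ω - m) - l * S ω) ^ 2 ∂PP ι =
      Vr f - 2 * l * (r * c) + l ^ 2 * (r * A.card) := by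
    rw [← h1, ← h2, Vr, ← hm, ← integral_const_mul, ← integral_const_mul,
      ← integral_sub hfm.sq.integrable ((hfm.mul hSn).cmul _).integrable,
      ← integral_add (hfm.sq.sub ((hfm.mul hSn).cmul _)).integrable
        ((hSn.mul hSn).cmul _).integrable]
    congr 1
    ext ω
    ring
  rw [h4] at h3
  have h5 : c = l * A.card := by rw [hl]; field_simp
  have h6 := mul_nonneg hc.le h3
  rw [h5] at h6 ⊢
  nlinarith

theorem int_prod (A : Finset ι) (h : Bool → ℝ) :
    ∫ ω, ∏ e ∈ A, h (ω e) ∂PP ι = (qq * h true + (1 - qq) * h false) ^ A.card := by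
  induction A using Finset.induction_on with
  | empty => simp
  | insert a A ha ih =>
    rw [int_upd (Nice.prod _ fun e _ => Nice.coord e h) a, card_insert_of_notMem ha, pow_succ',
      ← ih, ← integral_const_mul]
    congr 1
    ext ω
    have : ∀ b, ∏ e ∈ A, h (update ω a b e) = ∏ e ∈ A, h (ω e) := fun b =>
      prod_congr rfl fun e he => by rw [update_of_ne (ne_of_mem_of_not_mem he ha)]
    simp only [prod_insert ha, update_self, this]
    ring

omit [DecidableEq ι] in
lemma markov {f : (ι → Bool) → ℝ} (hf : Nice f) (h0 : ∀ ω, 0 ≤ f ω) (c : ℝ) :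
    c * (PP ι).real {ω | c ≤ f ω} ≤ ∫ ω, f ω ∂PP ι :=
  mul_meas_ge_le_integral_of_nonneg (ae_of_all _ h0) hf.integrable c

omit [DecidableEq ι] in
lemma cheb {f : (ι → Bool) → ℝ} (hf : Nice f) {c : ℝ} (hc : 0 < c) :
    (PP ι).real {ω | c ≤ |f ω - ∫ ω', f ω' ∂PP ι|} ≤ Vr f / c ^ 2 := by
  have := markov (hf.sub (Nice.const (∫ ω', f ω' ∂PP ι))).sq (fun ω => sq_nonneg _) (c ^ 2)
  rw [le_div_iff₀ (by positivity), mul_comm]
  refine le_trans (mul_le_mul_of_nonneg_left (measureReal_mono ?_ (measure_ne_top _ _)) (by positivity)) this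
  intro ω hω
  simp only [Set.mem_ofPred_eq] at hω ⊢
  rw [← sq_abs (f ω - _)]
  exact pow_le_pow_left₀ hc.le hω 2

omit [DecidableEq ι] in
lemma Vr_le {f : (ι → Bool) → ℝ} (hf : Nice f) (c : ℝ) :
    Vr f ≤ ∫ ω, (f ω - c) ^ 2 ∂PP ι := by
  set m := ∫ ω, f ω ∂PP ι with hm
  have hfm : Nice fun ω => f ω - m := hf.sub (Nice.const _)
  have h1 : ∫ ω, (f ω - c) ^ 2 ∂PP ι = Vr f + (2 * (m - c) * ∫ ω, (f ω - m) ∂PP ι + (m - c) ^ 2) := by
    have : (m - c) ^ 2 = ∫ _ω, (m - c) ^ 2 ∂PP ι := by simp
    rw [this, Vr, ← hm, ← integral_const_mul,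
      ← integral_add (hfm.cmul _).integrable (Nice.const _).integrable,
      ← integral_add hfm.sq.integrable ((hfm.cmul _).add (Nice.const _)).integrable]
    congr 1
    ext ω
    ring
  have h2 : ∫ ω, (f ω - m) ∂PP ι = 0 := by
    rw [integral_sub hf.integrable (Nice.const _).integrable]; simp [hm]
  rw [h1, h2]
  nlinarith [sq_nonneg (m - c)]

lemma prob_all (A : Finset ι) :
    (PP ι).real {ω | ∀ e ∈ A, ω e = true} ≤ qq ^ A.card := by
  have h := markov (Nice.prod A fun e _ => Nice.coord e fun b => if b then (1 : ℝ) else 0)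
    (fun ω => prod_nonneg fun e _ => by positivity) 1
  rw [int_prod A fun b => if b then (1 : ℝ) else 0] at h
  simp only [one_mul, if_true, mul_one, Bool.false_eq_true, if_false, mul_zero, add_zero] at h
  refine le_trans (measureReal_mono ?_ (measure_ne_top _ _)) h
  intro ω hω
  simp only [Set.mem_ofPred_eq] at hω ⊢
  rw [prod_congr rfl (g := fun _ => (1 : ℝ)) fun e he => by simp [hω e he]]
  simp

lemma prob_few (A : Finset ι) (c : ℝ) :
    (PP ι).real {ω | ((A.filter fun e => ω e = true).card : ℝ) ≤ c} ≤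
      Real.exp (c - A.card / 128) := by
  have h := markov (Nice.prod A fun e _ => Nice.coord e fun b => if b then Real.exp (-1) else 1)
    (fun ω => prod_nonneg fun e _ => by positivity) (Real.exp (-c))
  rw [int_prod A fun b => if b then Real.exp (-1) else 1] at h
  simp only [if_true, mul_one, Bool.false_eq_true, if_false] at h
  have h1 : Real.exp (-1) ≤ 1 / 2 := by
    rw [Real.exp_neg, inv_le_comm₀ (Real.exp_pos _) (by norm_num)]
    have := Real.add_one_le_exp (1 : ℝ)
    norm_num at this ⊢
    linarith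
  have h2 : qq * Real.exp (-1) + (1 - qq) ≤ Real.exp (-(1 / 128)) := by
    have := Real.add_one_le_exp (-(1 / 128) : ℝ)
    unfold qq
    linarith
  have h3 : (qq * Real.exp (-1) + (1 - qq)) ^ A.card ≤ Real.exp (-(A.card / 128)) := by
    have h0 : 0 ≤ qq * Real.exp (-1) + (1 - qq) :=
      add_nonneg (mul_nonneg qq_pos.le (Real.exp_pos _).le) (by linarith [qq_lt])
    refine (pow_le_pow_left₀ h0 h2 _).trans_eq ?_
    rw [← Real.exp_nat_mul]; congr 1; ring
  have h4 : (PP ι).real {ω | ((A.filter fun e => ω e = true).card : ℝ) ≤ c} ≤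
      (PP ι).real {ω | Real.exp (-c) ≤ ∏ e ∈ A, if ω e then Real.exp (-1) else 1} := by
    refine measureReal_mono ?_ (measure_ne_top _ _)
    intro ω hω
    simp only [Set.mem_ofPred_eq] at hω ⊢
    rw [prod_ite, prod_const, prod_const_one, mul_one, ← Real.exp_nat_mul]
    exact Real.exp_le_exp.2 (by linarith)
  have h5 := (mul_le_mul_of_nonneg_left h4 (Real.exp_pos (-c)).le).trans (h.trans h3)
  rw [sub_eq_add_neg, Real.exp_add]
  rw [Real.exp_neg c, inv_mul_le_iff₀ (Real.exp_pos _)] at h5
  exact h5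

end Pool.Agent.Lib.MP_eba68f_pr
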