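import Pool.Agent.Lib.MP_eba68f_pr.Walks

/-! Near additivity of the mean passage time along geodesics. -/

namespace Pool.Agent.Lib.MP_eba68f_pr

open MeasureTheory ProbabilityTheory Function Finset SimpleGraph
open scoped NNReal ENNReal

def BadA (x : V) (c : ℝ) : Set Om :=
  {ω | ∃ z, TT ω 0 z + TT ω z x ≤ TT ω 0 x ∧ mm x + c < mm z + mm (x - z)}

lemma mm_le2 (z : V) : mm z ≤ 2 * n1 z :=
  (mm_le z).trans (mul_le_mul_of_nonneg_right (by linarith [bb_le]) (n1_nonneg _))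

lemma dev_le (u v : V) {k : ℝ} (hk : 1 ≤ k) (h : n1 (v - u) ≤ 7 * k ^ 4) :
    (PP _).real {ω : Om | 60 * k ^ 3 ≤ |TT ω u v - mm (v - u)|} ≤ 7 / (3600 * k ^ 2) := by
  have h1 := cheb (nice_TT u v) (c := 60 * k ^ 3) (by positivity)
  rw [int_TT] at h1
  refine h1.trans ?_
  rw [div_le_div_iff₀ (by positivity) (by positivity)]
  have h2 := mul_le_mul_of_nonneg_right ((Vr_TT_le u v).trans h) (show 0 ≤ 3600 * k ^ 2 by positivity)
  refine h2.trans_eq (by ring)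

lemma grid_approx (k : ℤ) (hk : 1 ≤ k) (c : ℤ) (hc : |c| ≤ 2 * k ^ 4) :
    ∃ a ∈ Icc (-(3 * k)) (3 * k), |c - k ^ 3 * a| ≤ k ^ 3 := by
  have hg : 0 < k ^ 3 := by positivity
  have h1 := Int.emod_nonneg c hg.ne'
  have h2 := Int.emod_lt_of_pos c hg
  have h3 := Int.mul_ediv_add_emod c (k ^ 3)
  obtain ⟨h4, h5⟩ := abs_le.1 hc
  refine ⟨c / k ^ 3, mem_Icc.2 ⟨?_, ?_⟩, abs_le.2 ⟨by linarith, by linarith⟩⟩
  · by_contra hcon
    have h6 : k ^ 3 * (c / k ^ 3) ≤ k ^ 3 * (-(3 * k)) :=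
      mul_le_mul_of_nonneg_left (not_le.1 hcon).le hg.le
    have h7 : k ^ 3 * 1 ≤ k ^ 3 * k := mul_le_mul_of_nonneg_left hk hg.le
    nlinarith
  · by_contra hcon
    have h6 : k ^ 3 * (3 * k) ≤ k ^ 3 * (c / k ^ 3) :=
      mul_le_mul_of_nonneg_left (not_le.1 hcon).le hg.le
    have h7 : k ^ 3 * 1 ≤ k ^ 3 * k := mul_le_mul_of_nonneg_left hk hg.le
    nlinarith

lemma badA_nat (k : ℕ) (hk : 1 ≤ k) (x : V) (hx : n1 x ≤ (k : ℝ) ^ 4) :
    (PP _).real (BadA x (200 * (k : ℝ) ^ 3)) ≤ 1 / 4 := by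
  have hkR : (1 : ℝ) ≤ k := by exact_mod_cast hk
  have hkZ : (1 : ℤ) ≤ k := by exact_mod_cast hk
  set I : Finset (ℤ × ℤ) := Icc (-(3 * (k : ℤ))) (3 * k) ×ˢ Icc (-(3 * (k : ℤ))) (3 * k) with hI
  set gp : ℤ × ℤ → V := fun a => pt ((k : ℤ) ^ 3 * a.1) ((k : ℤ) ^ 3 * a.2) with hgp
  set E : V → V → Set Om := fun u v => {ω : Om | 60 * (k : ℝ) ^ 3 ≤ |TT ω u v - mm (v - u)|}
    with hE
  have hk3 : (0 : ℝ) < (k : ℝ) ^ 3 := by positivity
  have hk4 : (0 : ℝ) < (k : ℝ) ^ 4 := by positivity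
  have hsub : BadA x (200 * (k : ℝ) ^ 3) ⊆ E 0 x ∪ ⋃ a ∈ I, (E 0 (gp a) ∪ E (gp a) x) := by
    rintro ω ⟨z, hz, hbad⟩
    have hz1 : n1 z ≤ 2 * (k : ℝ) ^ 4 := by
      have h1 := TT_ge ω 0 z
      have h2 := TT_up2 ω 0 x
      have h3 := (n1_nonneg _).trans (TT_ge ω z x)
      rw [sub_zero] at h1 h2
      linarith
    have hz0 : |z 0| ≤ 2 * (k : ℤ) ^ 4 := by
      have : |(z 0 : ℝ)| ≤ 2 * (k : ℝ) ^ 4 := by
        unfold n1 at hz1; linarith [abs_nonneg (z 1 : ℝ)]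
      exact_mod_cast this
    have hz1' : |z 1| ≤ 2 * (k : ℤ) ^ 4 := by
      have : |(z 1 : ℝ)| ≤ 2 * (k : ℝ) ^ 4 := by
        unfold n1 at hz1; linarith [abs_nonneg (z 0 : ℝ)]
      exact_mod_cast this
    obtain ⟨a, ha, ha'⟩ := grid_approx k hkZ _ hz0
    obtain ⟨b, hb, hb'⟩ := grid_approx k hkZ _ hz1'
    have hd : n1 (z - gp (a, b)) ≤ 2 * (k : ℝ) ^ 3 := by
      have h1 : |(z 0 : ℝ) - (k : ℝ) ^ 3 * a| ≤ (k : ℝ) ^ 3 := by exact_mod_cast ha'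
      have h2 : |(z 1 : ℝ) - (k : ℝ) ^ 3 * b| ≤ (k : ℝ) ^ 3 := by exact_mod_cast hb'
      simp only [n1, hgp, Pi.sub_apply, pt_zero, pt_one]
      push_cast
      linarith
    have hd' : n1 (gp (a, b) - z) ≤ 2 * (k : ℝ) ^ 3 := by rwa [n1_sub_comm]
    by_contra hcon
    simp only [Set.mem_union, Set.mem_iUnion, not_or, not_exists, hE, Set.mem_ofPred_eq,
      not_le] at hcon
    obtain ⟨h0, h1⟩ := hcon
    obtain ⟨h1, h2⟩ := h1 (a, b) (mem_product.2 ⟨ha, hb⟩)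
    set z' := gp (a, b)
    rw [sub_zero] at h0 h1
    have e0 := (abs_lt.1 h0).2
    have e1 := (abs_lt.1 h1).1
    have e2 := (abs_lt.1 h2).1
    have t1 := TT_tri ω 0 z z'
    have t2 := TT_tri ω z' z x
    have t3 := TT_up2 ω z z'
    have t4 := TT_up2 ω z' z
    have m1 := mm_add z' (z - z')
    have m2 := mm_add (x - z') (z' - z)
    rw [show z' + (z - z') = z by abel] at m1
    rw [show x - z' + (z' - z) = x - z by abel] at m2
    have m3 := mm_le2 (z - z')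
    have m4 := mm_le2 (z' - z)
    linarith
  have hgpn : ∀ a ∈ I, n1 (gp a) ≤ 6 * (k : ℝ) ^ 4 := by
    intro a ha
    obtain ⟨h1, h2⟩ := mem_product.1 ha
    have h3 : |(a.1 : ℝ)| ≤ 3 * k := by exact_mod_cast abs_le.2 (mem_Icc.1 h1)
    have h4 : |(a.2 : ℝ)| ≤ 3 * k := by exact_mod_cast abs_le.2 (mem_Icc.1 h2)
    simp only [n1, hgp, pt_zero, pt_one]
    push_cast
    rw [abs_mul, abs_mul, abs_of_pos hk3]
    nlinarith
  have hp0 : (PP _).real (E 0 x) ≤ 7 / (3600 * (k : ℝ) ^ 2) :=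
    dev_le 0 x hkR (by rw [sub_zero]; linarith)
  have hp1 : ∀ a ∈ I, (PP _).real (E 0 (gp a) ∪ E (gp a) x) ≤ 14 / (3600 * (k : ℝ) ^ 2) := by
    intro a ha
    have h1 : (PP _).real (E 0 (gp a)) ≤ 7 / (3600 * (k : ℝ) ^ 2) :=
      dev_le 0 _ hkR (by rw [sub_zero]; linarith [hgpn a ha])
    have h2 : (PP _).real (E (gp a) x) ≤ 7 / (3600 * (k : ℝ) ^ 2) := by
      refine dev_le _ x hkR ?_
      have := n1_add_le x (0 - gp a)
      rw [n1_sub_comm 0, sub_zero, show x + (0 - gp a) = x - gp a by abel] at this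
      linarith [hgpn a ha]
    refine (measureReal_union_le _ _).trans ((add_le_add h1 h2).trans_eq (by ring))
  have hcard : (I.card : ℝ) ≤ 49 * (k : ℝ) ^ 2 := by
    have : (Icc (-(3 * (k : ℤ))) (3 * k)).card = 6 * k + 1 := by
      rw [Int.card_Icc]; omega
    rw [hI, card_product, this]
    push_cast
    nlinarith
  have hk2 : (1 : ℝ) ≤ (k : ℝ) ^ 2 := one_le_pow₀ hkR
  calc _ ≤ (PP _).real (E 0 x ∪ ⋃ a ∈ I, (E 0 (gp a) ∪ E (gp a) x)) :=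
        measureReal_mono hsub (measure_ne_top _ _)
    _ ≤ (PP _).real (E 0 x) + ∑ a ∈ I, (PP _).real (E 0 (gp a) ∪ E (gp a) x) :=
        (measureReal_union_le _ _).trans (add_le_add le_rfl (measureReal_biUnion_finset_le _ _))
    _ ≤ 7 / (3600 * (k : ℝ) ^ 2) + 49 * (k : ℝ) ^ 2 * (14 / (3600 * (k : ℝ) ^ 2)) := by
        refine add_le_add hp0 ((sum_le_card_nsmul _ _ _ hp1).trans ?_)
        rw [nsmul_eq_mul]
        exact mul_le_mul_of_nonneg_right hcard (by positivity)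
    _ ≤ 7 / 3600 + 49 * 14 / 3600 := by
        refine add_le_add ?_ (le_of_eq (by field_simp))
        exact div_le_div_of_nonneg_left (by norm_num) (by norm_num) (by linarith)
    _ ≤ 1 / 4 := by norm_num

theorem badA_le {u : ℝ} (hu : 1 ≤ u) (x : V) (hx : n1 x ≤ u ^ 4) :
    (PP _).real (BadA x (1600 * u ^ 3)) ≤ 1 / 4 := by
  have h1 : u ≤ (⌈u⌉₊ : ℝ) := Nat.le_ceil u
  have h2 : (⌈u⌉₊ : ℝ) ≤ 2 * u := by linarith [Nat.ceil_lt_add_one (show 0 ≤ u by linarith)]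
  have h3 : 1 ≤ ⌈u⌉₊ := by exact_mod_cast hu.trans h1
  refine le_trans (measureReal_mono ?_ (measure_ne_top _ _))
    (badA_nat _ h3 x (hx.trans (pow_le_pow_left₀ (by linarith) h1 4)))
  rintro ω ⟨z, hz, hb⟩
  refine ⟨z, hz, lt_of_le_of_lt ?_ hb⟩
  have := pow_le_pow_left₀ (by linarith) h2 3
  nlinarith

theorem exists_good_walk {u : ℝ} (hu : 1 ≤ u) (x : V) (hx : n1 x ≤ u ^ 4) :
    ∃ p : G.Walk 0 x, ∀ z ∈ p.support, mm z + mm (x - z) ≤ mm x + 1600 * u ^ 3 := by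
  have h := badA_le hu x hx
  have : ∃ ω, ω ∉ BadA x (1600 * u ^ 3) := by
    by_contra hc
    push Not at hc
    rw [Set.eq_univ_of_forall hc, probReal_univ] at h
    norm_num at h
  obtain ⟨ω, hω⟩ := this
  obtain ⟨p, -, hp⟩ := exists_geo ω 0 x
  refine ⟨p, fun z hz => ?_⟩
  by_contra hc
  exact hω ⟨z, hp ▸ TT_split ω p hz, not_le.1 hc⟩

end Pool.Agent.Lib.MP_eba68f_pr
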