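import Pool.Agent.Lib.MP_eba68f_pr.Conc

/-! A direction close to the axis with a supporting parabola, and confinement of
almost additive points to a thin strip around it. -/

namespace Pool.Agent.Lib.MP_eba68f_pr

open Filter Topology SimpleGraph

noncomputable def hh (z : V) : ℝ := mm z / z 0 - ((z 1 : ℝ) / z 0) ^ 2 / 4

structure Good (ψ t : ℝ) : Prop where
  t_le : |t| ≤ 2 * bb
  psi_ge : 1 ≤ ψ
  psi_le : ψ ≤ 1 + bb
  low : ∀ z : V, 1 ≤ z 0 → |z 1| ≤ z 0 → ψ ≤ hh z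
  approx : ∀ δ > 0, ∃ z : V, 1 ≤ z 0 ∧ |z 1| ≤ z 0 ∧ hh z < ψ + δ ∧ |(z 1 : ℝ) / z 0 - t| < δ

lemma slope_le {z : V} (h0 : 1 ≤ z 0) (h1 : |z 1| ≤ z 0) : |(z 1 : ℝ) / z 0| ≤ 1 := by
  have ha : (1 : ℝ) ≤ z 0 := by exact_mod_cast h0
  have hb : |(z 1 : ℝ)| ≤ z 0 := by exact_mod_cast h1
  rw [abs_div, abs_of_pos (show (0 : ℝ) < z 0 by linarith), div_le_one (by linarith)]
  exact hb

lemma hh_ge {z : V} (h0 : 1 ≤ z 0) (h1 : |z 1| ≤ z 0) :
    1 + 3 / 4 * |(z 1 : ℝ) / z 0| ≤ hh z := by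
  have ha : (1 : ℝ) ≤ z 0 := by exact_mod_cast h0
  have h2 := slope_le h0 h1
  have h3 : 1 + |(z 1 : ℝ) / z 0| ≤ mm z / z 0 := by
    rw [le_div_iff₀ (by linarith), abs_div, abs_of_pos (show (0 : ℝ) < z 0 by linarith), add_mul,
      div_mul_cancel₀ _ (by linarith), one_mul]
    have := mm_ge z
    rwa [n1, abs_of_pos (show (0 : ℝ) < z 0 by linarith)] at this
  unfold hh
  rw [← sq_abs ((z 1 : ℝ) / z 0)]
  nlinarith [abs_nonneg ((z 1 : ℝ) / z 0)]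

lemma exists_good : ∃ ψ t, Good ψ t := by
  let C := {z : V // 1 ≤ z 0 ∧ |z 1| ≤ z 0}
  have : Nonempty C := ⟨⟨pt 1 0, by simp⟩⟩
  have hb : BddBelow (Set.range fun z : C => hh z) := by
    refine ⟨0, ?_⟩
    rintro _ ⟨z, rfl⟩
    have := hh_ge z.2.1 z.2.2
    have := abs_nonneg (((z : V) 1 : ℝ) / (z : V) 0)
    show 0 ≤ hh z
    linarith
  set ψ := ⨅ z : C, hh z with hψ
  have hseq : ∀ n : ℕ, ∃ z : C, hh z < ψ + 1 / ((n : ℝ) + 1) := fun n =>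
    exists_lt_of_ciInf_lt (by rw [← hψ]; exact lt_add_of_pos_right _ (by positivity))
  choose zs hzs using hseq
  obtain ⟨t, -, φ, hφ, hlim⟩ := (isCompact_Icc (a := (-1 : ℝ)) (b := 1)).tendsto_subseq
    (x := fun n => ((zs n : V) 1 : ℝ) / (zs n : V) 0)
    fun n => abs_le.1 (slope_le (zs n).2.1 (zs n).2.2)
  have happ : ∀ δ > 0, ∃ z : V, 1 ≤ z 0 ∧ |z 1| ≤ z 0 ∧ hh z < ψ + δ ∧
      |(z 1 : ℝ) / z 0 - t| < δ := by
    intro δ hδ
    have h1 := (Metric.tendsto_nhds.1 hlim) δ hδ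
    have h2 := (tendsto_one_div_add_atTop_nhds_zero_nat (𝕜 := ℝ)).eventually (gt_mem_nhds hδ)
    obtain ⟨n, hn1, hn2⟩ := (h1.and h2).exists
    refine ⟨zs (φ n), (zs _).2.1, (zs _).2.2, (hzs _).trans_le ?_, hn1⟩
    have h3 : (n : ℝ) ≤ φ n := by exact_mod_cast hφ.id_le n
    have h4 : 1 / ((φ n : ℝ) + 1) ≤ 1 / ((n : ℝ) + 1) :=
      one_div_le_one_div_of_le (by positivity) (by linarith)
    linarith
  have hle : ψ ≤ 1 + bb := by
    refine (ciInf_le hb ⟨pt 1 0, by simp⟩).trans ?_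
    have := mm_le (pt 1 0)
    simpa [hh, n1] using this
  refine ⟨ψ, t, ?_, ?_, hle, fun z h0 h1 => ciInf_le hb ⟨z, h0, h1⟩, happ⟩
  · obtain ⟨z, h0, h1, h2, h3⟩ := happ (bb / 5) (by linarith [bb_pos])
    have h4 := hh_ge h0 h1
    have h5 := abs_sub_abs_le_abs_sub t ((z 1 : ℝ) / z 0)
    rw [abs_sub_comm] at h5
    linarith [bb_pos]
  · refine le_ciInf fun z => ?_
    have := hh_ge z.2.1 z.2.2
    have := abs_nonneg (((z : V) 1 : ℝ) / (z : V) 0)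
    linarith

noncomputable def ff (ψ t : ℝ) (z : V) : ℝ := (ψ - t ^ 2 / 4) * z 0 + t / 2 * z 1

noncomputable def ww (t : ℝ) (z : V) : ℝ := z 1 - t * z 0

lemma ff_add (ψ t : ℝ) (y z : V) : ff ψ t (y + z) = ff ψ t y + ff ψ t z := by
  simp only [ff, Pi.add_apply, Int.cast_add]; ring

lemma ff_sub (ψ t : ℝ) (y z : V) : ff ψ t (y - z) = ff ψ t y - ff ψ t z := by
  simp only [ff, Pi.sub_apply, Int.cast_sub]; ring

lemma ww_sub (t : ℝ) (y z : V) : ww t (y - z) = ww t y - ww t z := by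
  simp only [ww, Pi.sub_apply, Int.cast_sub]; ring

lemma mm_nsmul (z : V) (n : ℕ) : mm (n • z) ≤ n * mm z := by
  induction n with
  | zero => simpa [n1] using mm_le 0
  | succ n ih =>
    rw [succ_nsmul]
    push_cast
    linarith [mm_add (n • z) z]

namespace Good

variable {ψ t : ℝ} (H : Good ψ t)
include H

lemma t_small : |t| ≤ 1 / 1000 := by linarith [H.t_le, bb_le]

lemma t_sq : t ^ 2 ≤ 1 / 1000 := by
  rw [← sq_abs]; nlinarith [H.t_small, abs_nonneg t]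

lemma al_ge : 9 / 10 ≤ ψ - t ^ 2 / 4 := by linarith [H.t_sq, H.psi_ge]

lemma al_le : ψ - t ^ 2 / 4 ≤ 11 / 10 := by linarith [H.psi_le, bb_le, sq_nonneg t]

lemma key (z : V) : 0 ≤ mm z - ff ψ t z ∧ ww t z ^ 2 ≤ 4 * n1 z * (mm z - ff ψ t z) := by
  have hn := n1_nonneg z
  by_cases hc : 1 ≤ z 0 ∧ |z 1| ≤ z 0
  · have ha : (1 : ℝ) ≤ z 0 := by exact_mod_cast hc.1
    have h1 := H.low z hc.1 hc.2
    have h2 : 4 * (z 0 : ℝ) * (mm z - ff ψ t z) - ww t z ^ 2 = 4 * (z 0 : ℝ) ^ 2 * (hh z - ψ) := by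
      unfold hh ff ww
      field_simp
      ring
    have h3 : 0 ≤ 4 * (z 0 : ℝ) ^ 2 * (hh z - ψ) := mul_nonneg (by positivity) (by linarith)
    have h4 : 0 ≤ mm z - ff ψ t z := by
      by_contra hneg
      have : 4 * (z 0 : ℝ) * (mm z - ff ψ t z) < 0 :=
        mul_neg_of_pos_of_neg (by linarith) (not_le.1 hneg)
      nlinarith [sq_nonneg (ww t z)]
    refine ⟨h4, ?_⟩
    have h5 : (z 0 : ℝ) ≤ n1 z := by
      unfold n1; linarith [le_abs_self (z 0 : ℝ), abs_nonneg (z 1 : ℝ)]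
    nlinarith [mul_le_mul_of_nonneg_right h5 h4]
  · have hm := mm_ge z
    have h1 : t / 2 * z 1 ≤ 1 / 1000 * |(z 1 : ℝ)| := by
      have : t * z 1 ≤ |t| * |(z 1 : ℝ)| := by rw [← abs_mul]; exact le_abs_self _
      nlinarith [H.t_small, abs_nonneg (z 1 : ℝ), abs_nonneg t]
    have h2 : n1 z / 4 ≤ mm z - ff ψ t z := by
      unfold ff
      unfold n1 at hm ⊢
      by_cases h0 : 1 ≤ z 0
      · have ha : (1 : ℝ) ≤ z 0 := by exact_mod_cast h0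
        have hb : (z 0 : ℝ) ≤ |(z 1 : ℝ)| := by
          have : z 0 ≤ |z 1| := by
            by_contra hcon
            exact hc ⟨h0, (not_le.1 hcon).le⟩
          exact_mod_cast this
        rw [abs_of_pos (show (0 : ℝ) < z 0 by linarith)] at hm ⊢
        nlinarith [H.al_le]
      · have ha : (z 0 : ℝ) ≤ 0 := by exact_mod_cast (show z 0 ≤ 0 by omega)
        have := mul_nonpos_of_nonneg_of_nonpos (show 0 ≤ ψ - t ^ 2 / 4 by linarith [H.al_ge]) ha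
        linarith [abs_nonneg (z 0 : ℝ), abs_nonneg (z 1 : ℝ)]
    have h3 : |ww t z| ≤ n1 z := by
      unfold ww n1
      refine (abs_sub _ _).trans ?_
      rw [abs_mul]
      nlinarith [H.t_small, abs_nonneg (z 0 : ℝ)]
    refine ⟨by linarith, ?_⟩
    rw [← sq_abs]
    nlinarith [abs_nonneg (ww t z)]

lemma near (δ : ℝ) (hδ : 0 < δ) : ∃ z : V, 0 < ff ψ t z ∧ mm z ≤ (1 + δ) * ff ψ t z := by
  obtain ⟨z, h0, h1, h2, h3⟩ := H.approx (min (δ / 4) 1) (by positivity)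
  have ha : (1 : ℝ) ≤ z 0 := by exact_mod_cast h0
  have hd1 := min_le_left (δ / 4) 1
  have hd2 := min_le_right (δ / 4) 1
  set d := min (δ / 4) 1
  set τ := (z 1 : ℝ) / z 0 with hτ
  have e1 : ff ψ t z = z 0 * (ψ - t ^ 2 / 4 + t / 2 * τ) := by
    unfold ff; rw [hτ]; field_simp
  have e2 : mm z - ff ψ t z = z 0 * ((hh z - ψ) + (τ - t) ^ 2 / 4) := by
    unfold ff hh; rw [hτ]; field_simp; ring
  have h4 : |t * τ| ≤ 1 / 1000 := by
    rw [abs_mul]; nlinarith [H.t_small, slope_le h0 h1, abs_nonneg t, abs_nonneg τ]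
  have h5 : 1 / 2 ≤ ψ - t ^ 2 / 4 + t / 2 * τ := by linarith [H.al_ge, (abs_le.1 h4).1]
  have h6 : (τ - t) ^ 2 ≤ d := by
    rw [← sq_abs]; nlinarith [abs_nonneg (τ - t)]
  have h7 : z 0 / 2 ≤ ff ψ t z := by rw [e1]; nlinarith
  have h8 : mm z - ff ψ t z ≤ z 0 * (δ / 2) := by
    rw [e2]; exact mul_le_mul_of_nonneg_left (by linarith) (by linarith)
  refine ⟨z, by linarith, ?_⟩
  nlinarith

lemma ff_adj {u v : V} (h : G.Adj u v) : ff ψ t v ≤ ff ψ t u + 2 := by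
  unfold ff
  have := H.al_le
  have := H.al_ge
  have := abs_le.1 H.t_small
  rcases adj_iff.1 h with ⟨h0, h1⟩ | ⟨h0, h1⟩ | ⟨h0, h1⟩ | ⟨h0, h1⟩ <;> rw [h0, h1] <;>
    push_cast <;> linarith

lemma ivt {s : ℝ} {u v : V} (p : G.Walk u v) (hu : ff ψ t u ≤ s + 2) (hv : s ≤ ff ψ t v) :
    ∃ y ∈ p.support, s ≤ ff ψ t y ∧ ff ψ t y ≤ s + 2 := by
  induction p with
  | nil => exact ⟨_, by simp, hv, hu⟩
  | @cons a b c h p ih =>
    by_cases ha : s ≤ ff ψ t a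
    · exact ⟨a, by simp, ha, hu⟩
    · obtain ⟨y, hy, hy'⟩ := ih (by linarith [H.ff_adj h]) hv
      exact ⟨y, by simp [hy], hy'⟩

end Good

noncomputable def MM (ψ t s : ℝ) : ℝ := sInf (mm '' {z | s ≤ ff ψ t z})

lemma MM_le {ψ t s : ℝ} {z : V} (h : s ≤ ff ψ t z) : MM ψ t s ≤ mm z :=
  csInf_le ⟨0, by rintro _ ⟨z, -, rfl⟩; exact (n1_nonneg z).trans (mm_ge z)⟩ ⟨z, h, rfl⟩

namespace Good

variable {ψ t : ℝ} (H : Good ψ t)
include H

lemma ff_ceil {s : ℝ} (hs : 0 ≤ s) : s ≤ ff ψ t (pt ⌈2 * s⌉ 0) := by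
  have := Int.le_ceil (2 * s)
  simp only [ff, pt_zero, pt_one, Int.cast_zero, mul_zero, add_zero]
  nlinarith [H.al_ge]

lemma ne {s : ℝ} (hs : 0 ≤ s) : (mm '' {z | s ≤ ff ψ t z}).Nonempty :=
  ⟨_, pt ⌈2 * s⌉ 0, H.ff_ceil hs, rfl⟩

lemma MM_up {s : ℝ} (hs : 1 ≤ s) : MM ψ t s ≤ 6 * s := by
  refine (MM_le (H.ff_ceil (by linarith))).trans ((mm_le2 _).trans ?_)
  have h1 := Int.ceil_lt_add_one (2 * s)
  have h2 := Int.le_ceil (2 * s)
  simp only [n1, pt_zero, pt_one, Int.cast_zero, abs_zero, add_zero]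
  rw [abs_of_nonneg (by linarith)]
  linarith

lemma MM_lin (δ : ℝ) (hδ : 0 < δ) : ∃ C, ∀ S, 0 ≤ S → MM ψ t S ≤ (1 + δ) * S + C := by
  obtain ⟨z, h0, h1⟩ := H.near δ hδ
  refine ⟨(1 + δ) * ff ψ t z, fun S hS => ?_⟩
  set n := ⌈S / ff ψ t z⌉₊
  have h2 : S / ff ψ t z ≤ n := Nat.le_ceil _
  have h3 : (n : ℝ) < S / ff ψ t z + 1 := Nat.ceil_lt_add_one (by positivity)
  rw [div_le_iff₀ h0] at h2
  have h4 : (n : ℝ) * ff ψ t z ≤ S + ff ψ t z := by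
    have := mul_le_mul_of_nonneg_right h3.le h0.le
    rwa [add_mul, div_mul_cancel₀ _ h0.ne', one_mul] at this
  have h5 : ff ψ t (n • z) = n * ff ψ t z := by
    simp only [ff, Pi.smul_apply, nsmul_eq_mul, Int.cast_mul, Int.cast_natCast]; ring
  refine (MM_le (z := n • z) (by rw [h5]; exact h2)).trans ((mm_nsmul z n).trans ?_)
  have h6 := mul_le_mul_of_nonneg_left h1 (Nat.cast_nonneg (α := ℝ) n)
  have h7 := mul_le_mul_of_nonneg_left h4 (show 0 ≤ 1 + δ by linarith)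
  nlinarith

lemma doubling {u : ℝ} (hu : 1 ≤ u) :
    2 * MM ψ t (u ^ 4) - 12808 * u ^ 3 ≤ MM ψ t (2 * u ^ 4) := by
  have hu4 : 1 ≤ u ^ 4 := one_le_pow₀ hu
  have hu3 : 1 ≤ u ^ 3 := one_le_pow₀ hu
  refine le_csInf (H.ne (by positivity)) ?_
  rintro _ ⟨x, hx, rfl⟩
  have hx : 2 * u ^ 4 ≤ ff ψ t x := hx
  by_cases hbig : 12 * u ^ 4 ≤ mm x
  · linarith [H.MM_up hu4]
  · obtain ⟨p, hp⟩ := exists_good_walk (u := 2 * u) (by linarith) x
      (by linarith [mm_ge x, show (2 * u) ^ 4 = 16 * u ^ 4 by ring])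
    obtain ⟨y, hy, h1, h2⟩ := H.ivt (s := u ^ 4) p (by simp only [ff]; simp; linarith)
      (by linarith)
    have h3 := hp y hy
    have h4 := MM_le h1
    have h5 : u ^ 4 ≤ ff ψ t (x - y + pt 4 0) := by
      rw [ff_add, ff_sub]
      have : ff ψ t (pt 4 0) = (ψ - t ^ 2 / 4) * 4 := by simp [ff]
      linarith [H.al_ge]
    have h6 := MM_le h5
    have h7 := mm_add (x - y) (pt 4 0)
    have h8 := mm_le2 (pt 4 0)
    have h9 : n1 (pt 4 0) = 4 := by simp [n1]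
    have h10 : (2 * u) ^ 3 = 8 * u ^ 3 := by ring
    linarith

lemma MM_sharp {u : ℝ} (hu : 1 ≤ u) : MM ψ t (u ^ 4) ≤ u ^ 4 + 43000 * u ^ 3 := by
  set ρ := Real.sqrt (Real.sqrt 2) with hρ
  have hρ0 : 0 ≤ ρ := Real.sqrt_nonneg _
  have hρ4 : ρ ^ 4 = 2 := by
    rw [show ρ ^ 4 = (ρ ^ 2) ^ 2 by ring, hρ, Real.sq_sqrt (Real.sqrt_nonneg _),
      Real.sq_sqrt (by norm_num)]
  have hρ1 : 1 ≤ ρ := by
    by_contra hc
    have := pow_le_pow_left₀ hρ0 (not_le.1 hc).le 4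
    rw [hρ4] at this
    norm_num at this
  have hρ3 : ρ ^ 3 ≤ 17 / 10 := by
    have : ρ ≤ 119 / 100 := by
      by_contra hc
      have := pow_le_pow_left₀ (by norm_num) (not_le.1 hc).le 4
      rw [hρ4] at this
      norm_num at this
    refine (pow_le_pow_left₀ hρ0 this 3).trans (by norm_num)
  set A : ℝ → ℝ := fun u => MM ψ t (u ^ 4) - u ^ 4 - 43000 * u ^ 3 with hA
  have step : ∀ u, 1 ≤ u → 2 * A u ≤ A (ρ * u) := by
    intro u hu
    have h1 := H.doubling hu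
    have h2 : (ρ * u) ^ 4 = 2 * u ^ 4 := by rw [mul_pow, hρ4]
    have h3 : (ρ * u) ^ 3 ≤ 17 / 10 * u ^ 3 := by
      rw [mul_pow]; exact mul_le_mul_of_nonneg_right hρ3 (by positivity)
    have h4 : 0 ≤ u ^ 3 := by positivity
    simp only [hA, h2]
    linarith
  have iter : ∀ j : ℕ, 2 ^ j * A u ≤ A (ρ ^ j * u) := by
    intro j
    induction j with
    | zero => simp
    | succ j ih =>
      have := step (ρ ^ j * u) (one_le_mul_of_one_le_of_one_le (one_le_pow₀ hρ1) hu)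
      rw [show ρ ^ (j + 1) * u = ρ * (ρ ^ j * u) by ring, pow_succ]
      linarith
  by_contra hc
  have hApos : 0 < A u := by simp only [hA]; linarith
  have hu4 : 0 < u ^ 4 := by positivity
  obtain ⟨C, hC⟩ := H.MM_lin (A u / (2 * u ^ 4)) (by positivity)
  obtain ⟨j, hj⟩ := pow_unbounded_of_one_lt (2 * C / A u) (one_lt_two (α := ℝ))
  have h1 := iter j
  have h2 : (ρ ^ j * u) ^ 4 = 2 ^ j * u ^ 4 := by
    rw [mul_pow, ← pow_mul, mul_comm j 4, pow_mul, hρ4]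
  have h3 := hC (2 ^ j * u ^ 4) (by positivity)
  have h4 : (1 + A u / (2 * u ^ 4)) * (2 ^ j * u ^ 4) = 2 ^ j * u ^ 4 + 2 ^ j * A u / 2 := by
    field_simp
  have h5 : A (ρ ^ j * u) ≤ MM ψ t (2 ^ j * u ^ 4) - 2 ^ j * u ^ 4 := by
    simp only [hA, h2]
    have : 0 ≤ (ρ ^ j * u) ^ 3 := by positivity
    linarith
  rw [div_lt_iff₀ hApos] at hj
  linarith

lemma MM_sharp' {s U : ℝ} (hs : 1 ≤ s) (hU : 0 ≤ U) (h : s ≤ U ^ 4) :
    MM ψ t s ≤ s + 43000 * U ^ 3 := by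
  set u := Real.sqrt (Real.sqrt s) with hu
  have hu0 : 0 ≤ u := Real.sqrt_nonneg _
  have hu4 : u ^ 4 = s := by
    rw [show u ^ 4 = (u ^ 2) ^ 2 by ring, hu, Real.sq_sqrt (Real.sqrt_nonneg _),
      Real.sq_sqrt (by linarith)]
  have hu1 : 1 ≤ u := Real.one_le_sqrt.2 (Real.one_le_sqrt.2 hs)
  have huU : u ≤ U := by
    rw [← hu4] at h
    exact (pow_le_pow_iff_left₀ hu0 hU (by norm_num)).1 h
  have := H.MM_sharp hu1
  rw [hu4] at this
  linarith [pow_le_pow_left₀ hu0 huU 3]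

lemma excess {v : ℝ} (hv : 1 ≤ v) {x : V} (h0 : 2 ≤ x 0) (hw : |ww t x| ≤ 2)
    (hx : n1 x ≤ v ^ 16) : mm x - ff ψ t x ≤ 7000000 * v ^ 14 := by
  have ha : (2 : ℝ) ≤ x 0 := by exact_mod_cast h0
  have hid : ∀ z : V, ff ψ t z = (ψ + t ^ 2 / 4) * z 0 + t / 2 * ww t z := by
    intro z; unfold ff ww; ring
  have hc : 1 ≤ ψ + t ^ 2 / 4 := by linarith [H.psi_ge, sq_nonneg t]
  have htw : ∀ y : ℝ, |t / 2 * y| ≤ |y| / 1000 := by
    intro y
    rw [abs_mul, abs_div, abs_two]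
    nlinarith [H.t_small, abs_nonneg y, abs_nonneg t]
  have hs1 : 1 ≤ ff ψ t x := by
    rw [hid]
    have := (abs_le.1 (htw (ww t x))).1
    nlinarith
  have hs2 : ff ψ t x ≤ 2 * v ^ 16 := by linarith [(H.key x).1, mm_le2 x]
  have h12 : v ^ 12 ≤ v ^ 14 := pow_le_pow_right₀ hv (by norm_num)
  have h12' : v ^ 12 ≤ v ^ 16 := pow_le_pow_right₀ hv (by norm_num)
  have h1 : 1 ≤ v ^ 12 := one_le_pow₀ hv
  have hM := H.MM_sharp' hs1 (U := 2 * v ^ 4) (by positivity)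
    (by linarith [show (2 * v ^ 4) ^ 4 = 16 * v ^ 16 by ring])
  rw [show (2 * v ^ 4) ^ 3 = 8 * v ^ 12 by ring] at hM
  obtain ⟨_, ⟨z, hz, rfl⟩, hz'⟩ := exists_lt_of_csInf_lt (H.ne (s := ff ψ t x) (by linarith))
    (show MM ψ t (ff ψ t x) < ff ψ t x + 344001 * v ^ 12 by linarith)
  have hz : ff ψ t x ≤ ff ψ t z := hz
  obtain ⟨k1, k2⟩ := H.key z
  have hn : n1 z ≤ 344003 * v ^ 16 := by linarith [mm_ge z]
  have hwz : |ww t z| ≤ 688006 * v ^ 14 := by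
    apply abs_le_of_sq_le_sq _ (by positivity)
    have : 4 * n1 z * (mm z - ff ψ t z) ≤ 4 * (344003 * v ^ 16) * (344003 * v ^ 12) :=
      mul_le_mul (by linarith) (by linarith) k1 (by positivity)
    linarith [show (688006 * v ^ 14) ^ 2 = 4 * (344003 * v ^ 16) * (344003 * v ^ 12) by ring]
  have hwd : |ww t (x - z)| ≤ 688008 * v ^ 14 := by
    rw [ww_sub]
    linarith [abs_sub (ww t x) (ww t z)]
  have hfd : |ff ψ t (x - z)| ≤ 344001 * v ^ 14 := by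
    rw [ff_sub, abs_le]
    constructor <;> linarith
  have hd0 : |(((x - z) 0 : ℤ) : ℝ)| ≤ 1032009 * v ^ 14 := by
    have e := hid (x - z)
    have e2 : |(ψ + t ^ 2 / 4) * ((x - z) 0 : ℤ)| ≤ |ff ψ t (x - z)| + |t / 2 * ww t (x - z)| := by
      rw [show (ψ + t ^ 2 / 4) * ((x - z) 0 : ℤ) = ff ψ t (x - z) - t / 2 * ww t (x - z) by
        linarith]
      exact abs_sub _ _
    rw [abs_mul, abs_of_pos (by linarith)] at e2
    have := htw (ww t (x - z))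
    nlinarith [abs_nonneg (((x - z) 0 : ℤ) : ℝ), abs_nonneg (ww t (x - z))]
  have hd1 : |(((x - z) 1 : ℤ) : ℝ)| ≤ 1720017 * v ^ 14 := by
    have e : (((x - z) 1 : ℤ) : ℝ) = ww t (x - z) + t * ((x - z) 0 : ℤ) := by unfold ww; ring
    rw [e]
    refine (abs_add_le _ _).trans ?_
    rw [abs_mul]
    nlinarith [abs_nonneg (((x - z) 0 : ℤ) : ℝ), H.t_small, abs_nonneg t]
  have h2 := mm_add z (x - z)
  rw [show z + (x - z) = x by abel] at h2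
  have h3 := mm_le2 (x - z)
  unfold n1 at h3
  linarith

end Good

theorem curv : ∃ t : ℝ, |t| ≤ 2 * bb ∧ ∀ v : ℝ, 1 ≤ v → ∀ x z : V, 2 ≤ x 0 → |ww t x| ≤ 2 →
    n1 x ≤ v ^ 16 → n1 z ≤ 2 * v ^ 16 → mm z + mm (x - z) ≤ mm x + 1600 * v ^ 12 →
    |ww t z| ≤ 8000 * v ^ 15 := by
  obtain ⟨ψ, t, H⟩ := exists_good
  refine ⟨t, H.t_le, fun v hv x z h0 hw hx hz hadd => ?_⟩
  have h1 := H.excess hv h0 hw hx
  obtain ⟨k1, k2⟩ := H.key z
  have k3 := (H.key (x - z)).1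
  rw [ff_sub] at k3
  have h12 : v ^ 12 ≤ v ^ 14 := pow_le_pow_right₀ hv (by norm_num)
  have h14 : 0 ≤ v ^ 14 := by positivity
  apply abs_le_of_sq_le_sq _ (by positivity)
  have : 4 * n1 z * (mm z - ff ψ t z) ≤ 4 * (2 * v ^ 16) * (8000000 * v ^ 14) :=
    mul_le_mul (by linarith) (by linarith) k1 (by positivity)
  linarith [show (8000 * v ^ 15) ^ 2 = 4 * (2 * v ^ 16) * (8000000 * v ^ 14) by ring]

end Pool.Agent.Lib.MP_eba68f_pr
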