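import Mathlib

/-! Definitions for first-passage percolation on the integer lattice. -/

namespace Pool.Agent.Lib.MP_eba68f_pr

open MeasureTheory ProbabilityTheory Filter
open scoped NNReal ENNReal

/-- The nearest-neighbour graph on the lattice `Z^d`. -/
def lattice (d : ℕ) : SimpleGraph (Fin d → ℤ) where
  Adj u v := ∑ i, |u i - v i| = 1
  symm := ⟨fun u v h => by simpa only [abs_sub_comm (v _)] using h⟩
  loopless := ⟨fun u h => by simp at h⟩

/-- First-passage time: the infimum over lattice paths of the sum of the edge weights. -/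
noncomputable def passage {d : ℕ} (τ : (lattice d).edgeSet → ℝ≥0) (u v : Fin d → ℤ) : ℝ :=
  ⨅ p : (lattice d).Walk u v, (p.darts.map fun a => (τ ⟨a.edge, a.edge_mem⟩ : ℝ)).sum

/-- Variance of the passage time from the origin to the integer part of `n x`, for i.i.d. edge
weights with law `F`. -/
noncomputable def passVar {d : ℕ} (F : Measure ℝ≥0) (x : EuclideanSpace ℝ (Fin d)) (n : ℕ) :
    ℝ≥0∞ :=
  evariance (fun τ => passage τ 0 (fun i => ⌊(n : ℝ) * x i⌋))
    (Measure.infinitePi fun _ : (lattice d).edgeSet => F)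

/-- The variance exponent: the infimum (in the extended reals) of the real `κ` with
`limsup n^(-2κ) Var T(0, n x) < ∞`. -/
noncomputable def chi {d : ℕ} (F : Measure ℝ≥0) (x : EuclideanSpace ℝ (Fin d)) : EReal :=
  sInf ((fun κ : ℝ => (κ : EReal)) ''
    {κ : ℝ | limsup (fun n : ℕ => ENNReal.ofReal ((n : ℝ) ^ (-2 * κ)) * passVar F x n) atTop < ⊤})

end Pool.Agent.Lib.MP_eba68f_pr
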