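import Pool.Agent.Lib.MP_eba68f_pr.Walks

/-! The diagonal direction: a Peierls argument gives a polylogarithmic variance. -/

namespace Pool.Agent.Lib.MP_eba68f_pr

open MeasureTheory ProbabilityTheory Function Finset SimpleGraph
open scoped NNReal ENNReal

def costly (d : G.Dart) : Bool := decide (d.snd 1 = d.fst 1 + 1 ∨ d.snd 0 = d.fst 0 - 1)

def cr (d : G.Dart) : Sym2 V :=
  if d.snd 1 = d.fst 1 + 1 then s(d.snd, pt (d.snd 0 + 1) (d.snd 1))
  else s(d.fst, pt (d.fst 0) (d.fst 1 + 1))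

def DOpen (ω : Om) {u v : V} (p : G.Walk u v) : Prop :=
  ∀ d ∈ p.darts, costly d = true → ω (cr d) = true

lemma count_costly {u v : V} (p : G.Walk u v) :
    2 * ((p.darts.filter costly).length : ℤ) - p.length = (u 0 - u 1) - (v 0 - v 1) := by
  induction p with
  | nil => simp
  | @cons a b c h p ih =>
    rw [Walk.darts_cons, List.filter_cons, Walk.length_cons]
    have h' := adj_iff.1 h
    split_ifs with hc
    · simp only [costly, decide_eq_true_eq] at hc
      rw [List.length_cons]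
      push_cast
      omega
    · simp only [costly, decide_eq_true_eq] at hc
      push_cast
      omega

lemma cr_inj {d d' : G.Dart} (h : costly d = true) (h' : costly d' = true) (he : cr d = cr d') :
    d = d' := by
  have a1 := adj_iff.1 d.adj
  have a2 := adj_iff.1 d'.adj
  simp only [costly, decide_eq_true_eq] at h h'
  have : d.fst = d'.fst ∧ d.snd = d'.snd := by
    unfold cr at he
    split_ifs at he <;>
      simp only [Sym2.eq_iff, vext_iff, pt_zero, pt_one] at he ⊢ <;> omega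
  exact Dart.ext _ _ (Prod.ext this.1 this.2)

lemma prob_open {u v : V} (p : G.Walk u v) (hp : p.IsPath) (h : v 0 - v 1 ≤ u 0 - u 1) :
    (PP _).real {ω : Om | DOpen ω p} ≤ (1 / 8) ^ p.length := by
  set l := (p.darts.filter costly).map cr with hl
  have hnd : l.Nodup := by
    refine List.Nodup.map_on ?_ ((List.Nodup.of_map _ hp.isTrail.edges_nodup).filter _)
    intro d hd d' hd' he
    exact cr_inj (List.mem_filter.1 hd).2 (List.mem_filter.1 hd').2 he
  have h1 := prob_all l.toFinset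
  rw [List.toFinset_card_of_nodup hnd, hl, List.length_map] at h1
  have h2 := count_costly p
  refine (measureReal_mono ?_ (measure_ne_top _ _)).trans (h1.trans ?_)
  · intro ω hω e he
    obtain ⟨d, hd, rfl⟩ := List.mem_map.1 (List.mem_toFinset.1 he)
    exact hω d (List.mem_filter.1 hd).1 (List.mem_filter.1 hd).2
  · rw [show qq = (1 / 8) ^ 2 by norm_num [qq], ← pow_mul]
    exact pow_le_pow_of_le_one (by norm_num) (by norm_num) (by omega)

def BadC (u v : V) : Set Om := {ω | ∃ p : G.Walk u v, DOpen ω p}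

lemma badC_le (u v : V) (ρ : ℕ) (h : (ρ : ℤ) ≤ (u 0 - u 1) - (v 0 - v 1)) :
    (PP _).real (BadC u v) ≤ 2 * (1 / 2) ^ ρ := by
  set B : ℕ → Set Om := fun j =>
    ⋃ p ∈ (G.finsetWalkLength (ρ + j) u v).filter (fun p => p.IsPath), {ω | DOpen ω p} with hB
  have hsub : BadC u v ⊆ ⋃ j, B j := by
    rintro ω ⟨p, hp⟩
    have h1 := count_costly p.bypass
    have h2 : (p.bypass.darts.filter costly).length ≤ p.bypass.length :=
      (List.length_filter_le _ _).trans_eq (Walk.length_darts _)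
    simp only [hB, Set.mem_iUnion]
    exact ⟨p.bypass.length - ρ, p.bypass,
      mem_filter.2 ⟨mem_finsetWalkLength_iff.2 (by omega), p.bypass_isPath⟩,
      fun d hd => hp d (p.darts_bypass_subset_darts hd)⟩
  have h1 : ∀ j, (PP _).real (B j) ≤ (1 / 2) ^ ρ * (1 / 2) ^ j := by
    intro j
    refine (measureReal_biUnion_finset_le _ _).trans ((sum_le_card_nsmul _ _ ((1 / 8) ^ (ρ + j))
      fun p hp => ?_).trans ?_)
    · rw [← mem_finsetWalkLength_iff.1 (mem_filter.1 hp).1]
      exact prob_open p (mem_filter.1 hp).2 (by omega)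
    · rw [nsmul_eq_mul]
      have h3 : (((G.finsetWalkLength (ρ + j) u v).filter fun p => p.IsPath).card : ℝ) ≤
          (G.finsetWalkLength (ρ + j) u v).card := by exact_mod_cast card_filter_le _ _
      refine (mul_le_mul_of_nonneg_right (h3.trans (card_walks _ u v)) (by positivity)).trans ?_
      rw [← mul_pow, ← pow_add]
      norm_num
  have h2 : PP _ (BadC u v) ≤ ENNReal.ofReal (2 * (1 / 2) ^ ρ) := by
    refine (measure_mono hsub).trans ((measure_iUnion_le _).trans ?_)
    have h3 : ∀ j, PP _ (B j) ≤ ENNReal.ofReal ((1 / 2) ^ ρ * (1 / 2) ^ j) := fun j => by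
      rw [← ofReal_measureReal (measure_ne_top _ _)]
      exact ENNReal.ofReal_le_ofReal (h1 j)
    refine (ENNReal.tsum_le_tsum h3).trans_eq ?_
    rw [← ENNReal.ofReal_tsum_of_nonneg (fun j => by positivity)
      (summable_geometric_two.mul_left _), tsum_mul_left, tsum_geometric_two, mul_comm]
  exact ENNReal.toReal_le_of_le_ofReal (by positivity) h2

noncomputable def SS (ω : Om) (r : ℕ) : ℕ → Finset ℤ
  | 0 => Icc 0 r
  | i + 1 =>
    ((SS ω r i).filter fun x =>
      ω s(pt x (r + i - x), pt (x + 1) (r + i - x)) = false).image (· + 1) ∪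
    (SS ω r i).filter fun x => ω s(pt x (r + i - x), pt x (r + i - x + 1)) = false

lemma SS_bd (ω : Om) (r i : ℕ) : ∀ x ∈ SS ω r i, 0 ≤ x ∧ x ≤ r + i := by
  induction i with
  | zero => intro x hx; simpa [SS] using hx
  | succ i ih =>
    intro x hx
    simp only [SS, mem_union, mem_image, mem_filter] at hx
    push_cast
    rcases hx with ⟨y, ⟨hy, -⟩, rfl⟩ | ⟨hx, -⟩
    · have := ih y hy; omega
    · have := ih x hx; omega

lemma TT_adj (ω : Om) {u v : V} (h : G.Adj u v) (hl : ω s(u, v) = false) : TT ω u v ≤ 1 := by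
  have := TT_le ω (Walk.cons h Walk.nil)
  simpa [hl, wt] using this

lemma SS_T (ω : Om) (r i : ℕ) : ∀ x ∈ SS ω r i,
    TT ω 0 (pt x (r + i - x)) ≤ (1 + bb) * r + i := by
  induction i with
  | zero =>
    intro x hx
    obtain ⟨h0, h1⟩ := SS_bd ω r 0 x hx
    refine (TT_up ω _ _).trans (le_of_eq ?_)
    have h0' : (0 : ℝ) ≤ x := by exact_mod_cast h0
    have h1' : (x : ℝ) ≤ r := by exact_mod_cast (show x ≤ (r : ℤ) by simpa using h1)
    simp only [n1, sub_zero, pt_zero, pt_one]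
    push_cast
    rw [abs_of_nonneg h0', abs_of_nonneg (by linarith)]
    ring
  | succ i ih =>
    intro x hx
    simp only [SS, mem_union, mem_image, mem_filter] at hx
    push_cast
    rcases hx with ⟨y, ⟨hy, hl⟩, rfl⟩ | ⟨hx, hl⟩
    · have h1 := TT_tri ω 0 (pt y (r + i - y)) (pt (y + 1) (r + i - y))
      have h2 := TT_adj ω (by simp [adj_iff]) hl
      rw [show (r : ℤ) + (i + 1) - (y + 1) = r + i - y by ring]
      linarith [ih y hy]
    · have h1 := TT_tri ω 0 (pt x (r + i - x)) (pt x (r + i - x + 1))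
      have h2 := TT_adj ω (by simp [adj_iff]) hl
      rw [show (r : ℤ) + (i + 1) - x = r + i - x + 1 by ring]
      linarith [ih x hx]

lemma sum_le_of_sdiff {A B : Finset ℤ} {g : ℤ → ℤ} (h1 : ∀ x ∈ A, x ∉ B → 0 ≤ g x)
    (h2 : ∀ x, g x ≤ 0) : ∑ x ∈ B, g x ≤ ∑ x ∈ A, g x := by
  rw [← sum_sdiff (inter_subset_left (s₂ := B) : A ∩ B ⊆ A),
    ← sum_sdiff (inter_subset_right (s₁ := A) : A ∩ B ⊆ B)]
  have e1 : 0 ≤ ∑ x ∈ A \ (A ∩ B), g x := sum_nonneg fun x hx => by
    simp only [mem_sdiff, mem_inter, not_and] at hx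
    exact h1 x hx.1 (hx.2 hx.1)
  have e2 : ∑ x ∈ B \ (A ∩ B), g x ≤ 0 := sum_nonpos fun x _ => h2 x
  linarith

lemma flow (ω : Om) (r : ℕ) (ρ : ℤ → ℤ → ℤ)
    (hN : ∀ x y, ω s(pt x y, pt (x + 1) y) = true → ρ x (y - 1) ≤ ρ x y)
    (hW : ∀ x y, ω s(pt x y, pt x (y + 1)) = true → ρ x y ≤ ρ (x - 1) y)
    (hS : ∀ x y, ρ x y ≤ ρ x (y - 1)) (hE : ∀ x y, ρ (x - 1) y ≤ ρ x y) (i : ℕ) :
    ∑ x ∈ SS ω r i, (ρ (x - 1) (r + i - x) - ρ x (r + i - x - 1)) ≤ ρ (-1) r - ρ r (-1) := by
  induction i with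
  | zero =>
    have : ∀ n : ℕ, ∑ x ∈ Icc (0 : ℤ) n, (ρ (x - 1) (r - x) - ρ x (r - x - 1)) =
        ρ (-1) r - ρ n (r - n - 1) := by
      intro n
      induction n with
      | zero => simp
      | succ n ih =>
        have : Icc (0 : ℤ) (n + 1 : ℕ) = insert ((n : ℤ) + 1) (Icc (0 : ℤ) n) := by
          ext x; simp only [mem_Icc, mem_insert]; push_cast; omega
        rw [this, sum_insert (by simp), ih]
        push_cast
        rw [show (n : ℤ) + 1 - 1 = n by ring, show (r : ℤ) - (n + 1) = r - n - 1 by ring]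
        ring
    simpa [SS] using (this r).le
  | succ i ih =>
    refine le_trans ?_ ih
    set dp : ℤ → ℤ := fun x => ρ x (r + i - x) - ρ x (r + i - x - 1) with hdp
    set dm : ℤ → ℤ := fun x => ρ (x - 1) (r + i - x) - ρ x (r + i - x) with hdm
    have e1 : ∑ x ∈ SS ω r i, (ρ (x - 1) (r + i - x) - ρ x (r + i - x - 1)) =
        ∑ x ∈ SS ω r i, dp x + ∑ x ∈ SS ω r i, dm x := by
      rw [← sum_add_distrib]
      exact sum_congr rfl fun x _ => by simp only [hdp, hdm]; ring
    have e2 : ∑ x ∈ SS ω r (i + 1),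
        (ρ (x - 1) (r + (i + 1 : ℕ) - x) - ρ x (r + (i + 1 : ℕ) - x - 1)) =
        ∑ x ∈ (SS ω r (i + 1)).image (· - 1), dp x + ∑ x ∈ SS ω r (i + 1), dm x := by
      rw [sum_image fun x _ y _ h => by simpa using h, ← sum_add_distrib]
      refine sum_congr rfl fun x _ => ?_
      simp only [hdp, hdm]
      push_cast
      rw [show (r : ℤ) + (i + 1) - x - 1 = r + i - x by ring,
        show (r : ℤ) + i - (x - 1) - 1 = r + i - x by ring,
        show (r : ℤ) + i - (x - 1) = r + (i + 1) - x by ring]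
      ring
    rw [e1, e2]
    refine add_le_add (sum_le_of_sdiff ?_ fun x => sub_nonpos.2 (hS _ _))
      (sum_le_of_sdiff ?_ fun x => sub_nonpos.2 (hE _ _))
    · intro x hx hx'
      refine sub_nonneg.2 (hN _ _ ?_)
      by_contra hc
      refine hx' (mem_image.2 ⟨x + 1, ?_, by ring⟩)
      simp only [SS, mem_union, mem_image, mem_filter]
      exact Or.inl ⟨x, ⟨hx, by simpa using hc⟩, rfl⟩
    · intro x hx hx'
      refine sub_nonneg.2 (hW _ _ ?_)
      by_contra hc
      refine hx' ?_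
      simp only [SS, mem_union, mem_image, mem_filter]
      exact Or.inr ⟨hx, by simpa using hc⟩

noncomputable def box (k : ℕ) : Finset V := Fintype.piFinset fun _ : Fin 2 => Icc (-1) (2 * (k : ℤ))

lemma mem_box {k : ℕ} {x y : ℤ} (h1 : -1 ≤ x) (h2 : x ≤ 2 * k) (h3 : -1 ≤ y) (h4 : y ≤ 2 * k) :
    pt x y ∈ box k := by
  simp only [box, Fintype.mem_piFinset, Fin.forall_fin_two, pt_zero, pt_one, mem_Icc]
  omega

lemma card_box (k : ℕ) : (box k).card = (2 * k + 2) ^ 2 := by
  rw [box, Fintype.card_piFinset, Fin.prod_univ_two, Int.card_Icc,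
    show (2 * (k : ℤ) + 1 - -1).toNat = 2 * k + 2 by omega]
  ring

lemma diag_good (ω : Om) {r k : ℕ} (hrk : r ≤ k)
    (hω : ∀ u ∈ box k, ∀ v ∈ box k, r + 1 ≤ u 0 - u 1 → v 0 - v 1 ≤ -(r + 1) → ω ∉ BadC u v) :
    TT ω 0 (pt k k) ≤ 2 * k + 2 * bb * r := by
  classical
  set R : V → Prop := fun z => ∃ u ∈ box k, r + 1 ≤ u 0 - u 1 ∧ ω ∈ BadC u z with hR
  have hstep : ∀ {y z : V} (h : G.Adj y z), (costly ⟨(y, z), h⟩ = true →
      ω (cr ⟨(y, z), h⟩) = true) → R y → R z := by
    rintro y z h hc ⟨u, hu, hu', p, hp⟩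
    refine ⟨u, hu, hu', p.concat h, fun d hd => ?_⟩
    rw [Walk.darts_concat, List.concat_eq_append, List.mem_append, List.mem_singleton] at hd
    rcases hd with hd | rfl
    · exact hp d hd
    · exact hc
  set ρ : ℤ → ℤ → ℤ := fun x y => if R (pt x y) then 1 else 0 with hρ
  have hmono : ∀ {x y x' y' : ℤ}, (R (pt x y) → R (pt x' y')) → ρ x y ≤ ρ x' y' := by
    intro x y x' y' h
    simp only [hρ]
    split_ifs with h1 h2 <;> first | exact absurd (h h1) h2 | omega
  have hin : ∀ {x y : ℤ}, pt x y ∈ box k → r + 1 ≤ x - y → ρ x y = 1 := by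
    intro x y h1 h2
    exact if_pos ⟨pt x y, h1, h2, Walk.nil, fun d hd => by simp at hd⟩
  have hout : ∀ {x y : ℤ}, pt x y ∈ box k → x - y ≤ -(r + 1) → ρ x y = 0 := by
    intro x y h1 h2
    exact if_neg fun ⟨u, hu, hu', hb⟩ => hω u hu _ h1 hu' h2 hb
  have hρ01 : ∀ x y, 0 ≤ ρ x y ∧ ρ x y ≤ 1 := by
    intro x y; simp only [hρ]; split_ifs <;> omega
  have hf := flow ω r ρ
    (fun x y h => hmono (hstep (by simp [adj_iff]) fun _ => by simpa [cr] using h))
    (fun x y h => hmono (hstep (by simp [adj_iff]) fun _ => by simpa [cr] using h))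
    (fun x y => hmono (hstep (by simp [adj_iff]) fun hc => by
      simp only [costly, decide_eq_true_eq, pt_zero, pt_one] at hc; omega))
    (fun x y => hmono (hstep (by simp [adj_iff]) fun hc => by
      simp only [costly, decide_eq_true_eq, pt_zero, pt_one] at hc; omega))
    (2 * (k - r))
  rw [hin (x := r) (y := -1) (mem_box (by omega) (by omega) (by omega) (by omega)) (by omega),
    hout (x := -1) (y := r) (mem_box (by omega) (by omega) (by omega) (by omega)) (by omega)] at hf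
  have hex : ∃ x ∈ SS ω r (2 * (k - r)), (k : ℤ) - r ≤ x ∧ x ≤ k := by
    by_contra hcon
    have : 0 ≤ ∑ x ∈ SS ω r (2 * (k - r)), (ρ (x - 1) (r + (2 * (k - r) : ℕ) - x) -
        ρ x (r + (2 * (k - r) : ℕ) - x - 1)) := by
      refine sum_nonneg fun x hx => ?_
      obtain ⟨h0, h1⟩ := SS_bd ω r _ x hx
      by_cases hk : (k : ℤ) < x
      · rw [hin (x := x - 1) (mem_box (by omega) (by omega) (by omega) (by omega)) (by omega)]
        exact sub_nonneg.2 (hρ01 _ _).2
      · have : x < (k : ℤ) - r := by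
          by_contra hc
          exact hcon ⟨x, hx, by omega, by omega⟩
        rw [hout (x := x) (mem_box (by omega) (by omega) (by omega) (by omega)) (by omega)]
        exact sub_nonneg.2 (hρ01 _ _).1
    omega
  obtain ⟨x, hx, h1, h2⟩ := hex
  have h3 := SS_T ω r _ x hx
  have h4 := TT_tri ω 0 (pt x (r + (2 * (k - r) : ℕ) - x)) (pt k k)
  have h5 := TT_up ω (pt x (r + (2 * (k - r) : ℕ) - x)) (pt k k)
  have h6 : n1 (pt k k - pt x (r + (2 * (k - r) : ℕ) - x)) = r := by
    have e1 : (k : ℝ) - r ≤ x := by exact_mod_cast h1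
    have e2 : (x : ℝ) ≤ k := by exact_mod_cast h2
    simp only [n1, Pi.sub_apply, pt_zero, pt_one]
    push_cast [Nat.cast_sub hrk]
    rw [abs_of_nonneg (by linarith), abs_of_nonneg (by linarith)]
    ring
  rw [h6] at h5
  push_cast [Nat.cast_sub hrk] at h3 h4 h5
  linarith

lemma diag_prob (r k : ℕ) : (PP _).real {ω : Om | 2 * bb * r < TT ω 0 (pt k k) - 2 * k} ≤
    ((2 * k + 2 : ℕ) : ℝ) ^ 4 * (2 * (1 / 2) ^ (2 * r + 2)) := by
  classical
  set I := (box k ×ˢ box k).filter
    fun a : V × V => (r : ℤ) + 1 ≤ a.1 0 - a.1 1 ∧ a.2 0 - a.2 1 ≤ -(r + 1) with hI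
  have hsub : {ω : Om | 2 * bb * r < TT ω 0 (pt k k) - 2 * k} ⊆ ⋃ a ∈ I, BadC a.1 a.2 := by
    intro ω hω
    simp only [Set.mem_ofPred_eq] at hω
    by_contra hcon
    simp only [Set.mem_iUnion, not_exists] at hcon
    by_cases hrk : r ≤ k
    · have := diag_good ω hrk fun u hu v hv h1 h2 =>
        hcon (u, v) (mem_filter.2 ⟨mem_product.2 ⟨hu, hv⟩, h1, h2⟩)
      linarith
    · have h1 := TT_up ω 0 (pt k k)
      have h2 : (k : ℝ) ≤ r := by exact_mod_cast (not_le.1 hrk).le
      simp only [n1, sub_zero, pt_zero, pt_one, Int.cast_natCast, Nat.abs_cast] at h1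
      nlinarith [bb_pos]
  refine (measureReal_mono hsub (measure_ne_top _ _)).trans
    ((measureReal_biUnion_finset_le _ _).trans ((sum_le_card_nsmul _ _ _ fun a ha =>
      badC_le a.1 a.2 (2 * r + 2) (by have := (mem_filter.1 ha).2; push_cast; omega)).trans ?_))
  rw [nsmul_eq_mul]
  refine mul_le_mul_of_nonneg_right ?_ (by positivity)
  have : I.card ≤ (2 * k + 2) ^ 4 := by
    refine (card_filter_le _ _).trans (le_of_eq ?_)
    rw [card_product, card_box]; ring
  exact_mod_cast this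

theorem var_diag (k : ℕ) :
    Vr (fun ω => TT ω 0 (pt k k)) ≤ (3 * ((Nat.log 2 (2 * k + 2) : ℝ) + 1)) ^ 2 + 1 := by
  set m := 2 * k + 2 with hm
  set r := 3 * (Nat.log 2 m + 1) with hr
  have hn := nice_TT 0 (pt k k)
  set E := {ω : Om | 2 * bb * r < TT ω 0 (pt k k) - 2 * k} with hE
  have hEm : MeasurableSet E := measurableSet_lt measurable_const (hn.1.sub measurable_const)
  have hpt : ∀ ω, (TT ω 0 (pt k k) - 2 * k) ^ 2 ≤
      (r : ℝ) ^ 2 + E.indicator (fun _ => (m : ℝ) ^ 2) ω := by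
    intro ω
    have h0 := TT_ge ω 0 (pt k k)
    have h1 := TT_up ω 0 (pt k k)
    simp only [n1, sub_zero, pt_zero, pt_one, Int.cast_natCast, Nat.abs_cast] at h0 h1
    have hk : (0 : ℝ) ≤ k := Nat.cast_nonneg k
    have hr0 : (0 : ℝ) ≤ r := Nat.cast_nonneg r
    by_cases h : ω ∈ E
    · rw [Set.indicator_of_mem h]
      have : TT ω 0 (pt k k) - 2 * k ≤ m := by
        rw [hm]; push_cast; nlinarith [bb_le]
      nlinarith [pow_le_pow_left₀ (by linarith) this 2]
    · rw [Set.indicator_of_notMem h, add_zero]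
      simp only [hE, Set.mem_ofPred_eq, not_lt] at h
      exact pow_le_pow_left₀ (by linarith) (by nlinarith [bb_le]) 2
  have h1 := integral_mono (μ := PP (Sym2 V)) (hn.sub (Nice.const _)).sq.integrable
    ((integrable_const _).add ((integrable_const _).indicator hEm)) hpt
  simp only [Pi.add_apply] at h1
  rw [integral_add (integrable_const _) ((integrable_const _).indicator hEm),
    integral_indicator_const _ hEm] at h1
  simp only [integral_const, probReal_univ, smul_eq_mul, one_mul] at h1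
  have h2 := diag_prob r k
  have h3 : (m : ℝ) ≤ 2 ^ (Nat.log 2 m + 1) := by
    exact_mod_cast (Nat.lt_pow_succ_log_self one_lt_two m).le
  have h4 : (m : ℝ) ^ 6 * (1 / 2) ^ (2 * r) ≤ 1 := by
    have : (m : ℝ) ^ 6 ≤ 2 ^ (2 * r) := by
      rw [show 2 * r = (Nat.log 2 m + 1) * 6 by omega, pow_mul]
      exact pow_le_pow_left₀ (Nat.cast_nonneg _) h3 6
    refine (mul_le_mul_of_nonneg_right this (by positivity)).trans (le_of_eq ?_)
    rw [← mul_pow]; norm_num
  have h5 : (PP _).real E * (m : ℝ) ^ 2 ≤ 1 := by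
    refine (mul_le_mul_of_nonneg_right h2 (by positivity)).trans ?_
    rw [← hm, pow_add]
    have : (0 : ℝ) ≤ (m : ℝ) ^ 6 * (1 / 2) ^ (2 * r) := by positivity
    nlinarith
  have h6 := Vr_le hn (2 * k)
  have h7 : (r : ℝ) = 3 * ((Nat.log 2 m : ℝ) + 1) := by rw [hr]; push_cast; ring
  rw [← h7]
  linarith

end Pool.Agent.Lib.MP_eba68f_pr
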