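import Pool.Agent.Lib.MP_eba68f_pr.Curv

/-! Geodesics close to the axis carry many heavy edges; the variance lower bound. -/

namespace Pool.Agent.Lib.MP_eba68f_pr

open MeasureTheory ProbabilityTheory Function Finset SimpleGraph
open scoped NNReal ENNReal

noncomputable def cR (u v : V) : ℝ := if v 0 = u 0 + 1 then 1 else Real.exp (-9)

lemma cR_prod {u v : V} (p : G.Walk u v) :
    Real.exp (-9 * (p.length - ((v 0 : ℝ) - u 0))) ≤ (p.darts.map fun d => cR d.fst d.snd).prod := by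
  induction p with
  | nil => simp
  | @cons a b c h p ih =>
    simp only [Walk.darts_cons, List.map_cons, List.prod_cons, Walk.length_cons]
    push_cast
    unfold cR at ih ⊢
    split_ifs with hb
    · rw [one_mul]
      refine le_trans (le_of_eq ?_) ih
      have : (b 0 : ℝ) = a 0 + 1 := by exact_mod_cast hb
      rw [this]; ring_nf
    · refine le_trans ?_ (mul_le_mul_of_nonneg_left ih (Real.exp_pos _).le)
      rw [← Real.exp_add]
      have : b 0 ≤ a 0 := by rcases adj_iff.1 h with h | h | h | h <;> omega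
      have : (b 0 : ℝ) ≤ a 0 := by exact_mod_cast this
      exact Real.exp_le_exp.2 (by linarith)

lemma exp_neg_nine : Real.exp (-9) ≤ 1 / 7000 := by
  rw [Real.exp_neg, inv_le_comm₀ (Real.exp_pos _) (by norm_num)]
  have h1 : (27 / 10 : ℝ) ≤ Real.exp 1 := by linarith [Real.exp_one_gt_d9]
  have h2 : Real.exp 9 = Real.exp 1 ^ 9 := by rw [← Real.exp_nat_mul]; norm_num
  rw [h2]
  refine le_trans (by norm_num) (pow_le_pow_left₀ (by norm_num) h1 9)

lemma card_walks_near (l : ℕ) (x : V) :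
    ((G.finsetWalkLength l 0 x).card : ℝ) ≤ Real.exp (9 * (l - (x 0 : ℝ)) + 3 / 7000 * l) := by
  have h1 := walk_sum cR (fun u v => by unfold cR; positivity) (Real.exp (3 / 7000)) (fun u => by
    have := Real.add_one_le_exp (3 / 7000 : ℝ)
    have h2 := exp_neg_nine
    have e1 : ¬ u 0 - 1 = u 0 + 1 := by omega
    have e2 : ¬ u 0 = u 0 + 1 := by omega
    simp only [cR, pt_zero, if_true, e1, e2, if_false]
    linarith) l x 0
  have h2 : ∀ p ∈ G.finsetWalkLength l 0 x, Real.exp (-9 * (l - (x 0 : ℝ))) ≤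
      (p.darts.map fun d => cR d.fst d.snd).prod := by
    intro p hp
    have := cR_prod p
    rw [mem_finsetWalkLength_iff.1 hp] at this
    simpa using this
  have h3 := (card_nsmul_le_sum _ _ _ h2).trans h1
  rw [nsmul_eq_mul, ← Real.exp_nat_mul, ← le_div_iff₀ (Real.exp_pos _), ← Real.exp_sub] at h3
  exact h3.trans_eq (by ring_nf)

def BadB (x : V) (c : ℝ) : Set Om :=
  {ω | ∃ p : G.Walk 0 x, p.IsPath ∧ (p.length : ℝ) ≤ (1 + bb) * n1 x ∧
    ((p.edges.toFinset.filter fun e => ω e = true).card : ℝ) ≤ c}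

theorem badB_le (x : V) (ha : (2000000 : ℝ) ≤ x 0) (hb : |(x 1 : ℝ)| ≤ 2 * bb * x 0 + 2) :
    (PP _).real (BadB x (x 0 / 1000)) ≤ 1 / 4 := by
  set a : ℝ := ((x 0 : ℤ) : ℝ) with hadef
  have hn : n1 x = a + |(x 1 : ℝ)| := by rw [n1, abs_of_pos (by linarith)]
  have hL : (1 + bb) * n1 x ≤ a + (a / 20000 + 4) := by
    rw [hn]
    have := abs_nonneg (x 1 : ℝ)
    unfold bb at *
    nlinarith
  set L := ⌊(1 + bb) * n1 x⌋₊ with hLdef
  have hL2 : (L : ℝ) ≤ a + (a / 20000 + 4) :=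
    (Nat.floor_le (mul_nonneg (by linarith [bb_pos]) (n1_nonneg _))).trans hL
  set B : G.Walk 0 x → Set Om := fun p =>
    {ω | ((p.edges.toFinset.filter fun e => ω e = true).card : ℝ) ≤ a / 1000} with hB
  have hsub : BadB x (a / 1000) ⊆ ⋃ l ∈ range (L + 1),
      ⋃ p ∈ (G.finsetWalkLength l 0 x).filter (fun p => p.IsPath), B p := by
    rintro ω ⟨p, hp, hl, hc⟩
    simp only [Set.mem_iUnion]
    exact ⟨p.length, mem_range.2 (Nat.lt_succ_of_le (Nat.le_floor hl)), p,
      mem_filter.2 ⟨mem_finsetWalkLength_iff.2 rfl, hp⟩, hc⟩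
  have h1 : ∀ p : G.Walk 0 x, p.IsPath → (PP _).real (B p) ≤ Real.exp (a / 1000 - a / 128) := by
    intro p hp
    refine (prob_few _ _).trans (Real.exp_le_exp.2 ?_)
    rw [List.toFinset_card_of_nodup hp.isTrail.edges_nodup, Walk.length_edges]
    have := n1_le_length p
    rw [sub_zero, hn] at this
    linarith [abs_nonneg (x 1 : ℝ)]
  have h2 : ∀ l ∈ range (L + 1), (PP _).real
      (⋃ p ∈ (G.finsetWalkLength l 0 x).filter (fun p => p.IsPath), B p) ≤
      Real.exp (37 - a / 200) := by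
    intro l hl
    have hl' : (l : ℝ) ≤ L := by exact_mod_cast Nat.lt_succ_iff.1 (mem_range.1 hl)
    refine (measureReal_biUnion_finset_le _ _).trans ((sum_le_card_nsmul _ _ _
      fun p hp => h1 p (mem_filter.1 hp).2).trans ?_)
    rw [nsmul_eq_mul]
    have h3 : (((G.finsetWalkLength l 0 x).filter fun p => p.IsPath).card : ℝ) ≤
        (G.finsetWalkLength l 0 x).card := by exact_mod_cast card_filter_le _ _
    refine (mul_le_mul_of_nonneg_right (h3.trans (card_walks_near l x)) (Real.exp_pos _).le).trans ?_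
    rw [← Real.exp_add]
    exact Real.exp_le_exp.2 (by linarith)
  refine (measureReal_mono hsub (measure_ne_top _ _)).trans
    ((measureReal_biUnion_finset_le _ _).trans ((sum_le_card_nsmul _ _ _ h2).trans ?_))
  rw [nsmul_eq_mul, card_range]
  push_cast
  have h3 := Real.add_one_le_exp (a / 400)
  have h4 := Real.add_one_le_exp (a / 400 - 37)
  have h5 : Real.exp (37 - a / 200) * (Real.exp (a / 400) * Real.exp (a / 400 - 37)) = 1 := by
    rw [← Real.exp_add, ← Real.exp_add]; ring_nf; exact Real.exp_zero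
  have h6 : 4 * ((L : ℝ) + 1) ≤ Real.exp (a / 400) * Real.exp (a / 400 - 37) := by
    have : (a / 400 + 1) * 3200 ≤ Real.exp (a / 400) * Real.exp (a / 400 - 37) :=
      mul_le_mul h3 (by linarith) (by norm_num) (Real.exp_pos _).le
    linarith
  have h7 := mul_le_mul_of_nonneg_left h6 (Real.exp_pos (37 - a / 200)).le
  linarith

noncomputable def strip (t : ℝ) (v : ℕ) : Finset V :=
  (Icc (-(2 * (v : ℤ) ^ 16)) (2 * (v : ℤ) ^ 16) ×ˢ
    Icc (-(8000 * (v : ℤ) ^ 15 + 1)) (8000 * (v : ℤ) ^ 15 + 1)).image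
    fun a => pt a.1 (⌊t * a.1⌋ + a.2)

lemma mem_strip {t : ℝ} {v : ℕ} {z : V} (h1 : n1 z ≤ 2 * (v : ℝ) ^ 16)
    (h2 : |ww t z| ≤ 8000 * (v : ℝ) ^ 15) : z ∈ strip t v := by
  refine mem_image.2 ⟨(z 0, z 1 - ⌊t * z 0⌋), mem_product.2 ⟨mem_Icc.2 (abs_le.1 ?_),
    mem_Icc.2 (abs_le.1 ?_)⟩, vext (by simp) (by simp)⟩
  · have : |(z 0 : ℝ)| ≤ 2 * (v : ℝ) ^ 16 := by
      unfold n1 at h1; linarith [abs_nonneg (z 1 : ℝ)]
    exact_mod_cast this
  · have : |(z 1 : ℝ) - ⌊t * z 0⌋| ≤ 8000 * (v : ℝ) ^ 15 + 1 := by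
      have h3 := Int.floor_le (t * z 0)
      have h4 := Int.lt_floor_add_one (t * z 0)
      obtain ⟨h5, h6⟩ := abs_le.1 h2
      unfold ww at h5 h6
      rw [abs_le]
      constructor <;> linarith
    exact_mod_cast this

lemma card_strip (t : ℝ) {v : ℕ} (hv : 1 ≤ v) : ((strip t v).card : ℝ) ≤ 100000 * (v : ℝ) ^ 31 := by
  have h1 : (strip t v).card ≤ (4 * v ^ 16 + 1) * (16000 * v ^ 15 + 3) := by
    refine card_image_le.trans (le_of_eq ?_)
    rw [card_product, Int.card_Icc, Int.card_Icc]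
    congr 1
    · rw [show 2 * (v : ℤ) ^ 16 + 1 - -(2 * (v : ℤ) ^ 16) = ((4 * v ^ 16 + 1 : ℕ) : ℤ) by
        push_cast; ring, Int.toNat_natCast]
    · rw [show 8000 * (v : ℤ) ^ 15 + 1 + 1 - -(8000 * (v : ℤ) ^ 15 + 1) =
        ((16000 * v ^ 15 + 3 : ℕ) : ℤ) by push_cast; ring, Int.toNat_natCast]
  have h2 : ((strip t v).card : ℝ) ≤ (4 * (v : ℝ) ^ 16 + 1) * (16000 * (v : ℝ) ^ 15 + 3) := by
    exact_mod_cast h1
  have hv' : (1 : ℝ) ≤ v := by exact_mod_cast hv
  have h3 : (1 : ℝ) ≤ (v : ℝ) ^ 16 := one_le_pow₀ hv'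
  have h4 : (1 : ℝ) ≤ (v : ℝ) ^ 15 := one_le_pow₀ hv'
  calc _ ≤ (5 * (v : ℝ) ^ 16) * (20000 * (v : ℝ) ^ 15) :=
        h2.trans (mul_le_mul (by linarith) (by linarith) (by positivity) (by positivity))
    _ = _ := by ring

noncomputable def stripE (t : ℝ) (v : ℕ) : Finset (Sym2 V) :=
  (strip t v).image (fun z => s(z, pt (z 0 + 1) (z 1))) ∪
    (strip t v).image fun z => s(z, pt (z 0) (z 1 + 1))

lemma card_stripE (t : ℝ) {v : ℕ} (hv : 1 ≤ v) :
    ((stripE t v).card : ℝ) ≤ 200000 * (v : ℝ) ^ 31 := by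
  have h1 : (stripE t v).card ≤ (strip t v).card + (strip t v).card :=
    (card_union_le _ _).trans (add_le_add card_image_le card_image_le)
  have h2 : ((stripE t v).card : ℝ) ≤ (strip t v).card + (strip t v).card := by exact_mod_cast h1
  linarith [card_strip t hv]

lemma mem_stripE {t : ℝ} {v : ℕ} {y z : V} (h : G.Adj y z) (hy : y ∈ strip t v)
    (hz : z ∈ strip t v) : s(y, z) ∈ stripE t v := by
  unfold stripE
  rcases adj_iff.1 h with ⟨h0, h1⟩ | ⟨h0, h1⟩ | ⟨h0, h1⟩ | ⟨h0, h1⟩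
  · refine mem_union_left _ (mem_image.2 ⟨y, hy, ?_⟩)
    rw [show z = pt (y 0 + 1) (y 1) from vext h0 h1]
  · refine mem_union_left _ (mem_image.2 ⟨z, hz, ?_⟩)
    rw [show pt (z 0 + 1) (z 1) = y from vext (by simp [h0]) (by simp [h1]), Sym2.eq_swap]
  · refine mem_union_right _ (mem_image.2 ⟨y, hy, ?_⟩)
    rw [show z = pt (y 0) (y 1 + 1) from vext h0 h1]
  · refine mem_union_right _ (mem_image.2 ⟨z, hz, ?_⟩)
    rw [show pt (z 0) (z 1 + 1) = y from vext (by simp [h0]) (by simp [h1]), Sym2.eq_swap]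

theorem var_lower : ∃ t : ℝ, |t| ≤ 2 * bb ∧ ∀ v : ℕ, 1 ≤ v → ∀ x : V, (2000000 : ℝ) ≤ x 0 →
    |ww t x| ≤ 2 → n1 x ≤ (v : ℝ) ^ 16 →
    qq * (1 - qq) * (bb * x 0 / 2000) ^ 2 ≤ 200000 * (v : ℝ) ^ 31 * Vr fun ω => TT ω 0 x := by
  obtain ⟨t, ht, hcurv⟩ := curv
  refine ⟨t, ht, fun v hv x ha hw hx => ?_⟩
  have hv' : (1 : ℝ) ≤ v := by exact_mod_cast hv
  set f : Om → ℝ := fun ω => TT ω 0 x with hf
  have hfn : Nice f := nice_TT 0 x
  set N : Om → ℝ := fun ω => ∑ e ∈ stripE t v, DD e f ω with hN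
  have hNn : Nice N := Nice.sum _ fun e _ => hfn.dd e
  have hN0 : ∀ ω, 0 ≤ N ω := fun ω => sum_nonneg fun e _ => DD_nonneg 0 x e ω
  have hA := badA_le (u := (v : ℝ) ^ 4) (one_le_pow₀ hv') x (by rw [← pow_mul]; exact hx)
  have hB := badB_le x ha (by
    have h1 : (x 1 : ℝ) = ww t x + t * x 0 := by unfold ww; ring
    rw [h1]
    refine (abs_add_le _ _).trans ?_
    rw [abs_mul, abs_of_pos (show (0 : ℝ) < x 0 by linarith)]
    nlinarith)
  have hcover : (Set.univ : Set Om) ⊆ {ω | bb * x 0 / 1000 ≤ N ω} ∪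
      (BadA x (1600 * ((v : ℝ) ^ 4) ^ 3) ∪ BadB x (x 0 / 1000)) := by
    intro ω _
    by_contra hcon
    simp only [Set.mem_union, not_or, Set.mem_ofPred_eq] at hcon
    obtain ⟨h1, h2, h3⟩ := hcon
    obtain ⟨p, hp, hg⟩ := exists_geo ω 0 x
    have hsupp : ∀ z ∈ p.support, z ∈ strip t v := by
      intro z hz
      have h4 := TT_split ω p hz
      rw [hg] at h4
      have h5 : n1 z ≤ 2 * (v : ℝ) ^ 16 := by
        have e1 := TT_ge ω 0 z
        have e2 := TT_up2 ω 0 x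
        have e3 := (n1_nonneg _).trans (TT_ge ω z x)
        rw [sub_zero] at e1 e2
        linarith
      refine mem_strip h5 (hcurv v hv' x z (by exact_mod_cast (show (2 : ℝ) ≤ x 0 by linarith))
        hw hx h5 ?_)
      by_contra hc
      exact h2 ⟨z, h4, by rw [← pow_mul]; exact not_le.1 hc⟩
    have hedge : ∀ e ∈ p.edges, e ∈ stripE t v := by
      intro e he
      induction e using Sym2.ind with
      | h y z =>
        exact mem_stripE (p.adj_of_mem_edges he) (hsupp _ (p.fst_mem_support_of_mem_edges he))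
          (hsupp _ (p.snd_mem_support_of_mem_edges he))
    have h4 : (x 0 : ℝ) / 1000 < ((p.edges.toFinset.filter fun e => ω e = true).card : ℝ) := by
      by_contra hc
      exact h3 ⟨p, hp, by simpa using geo_length hg, not_lt.1 hc⟩
    apply h1
    have h5 : ∑ e ∈ p.edges.toFinset.filter fun e => ω e = true, DD e f ω ≤ N ω :=
      sum_le_sum_of_subset_of_nonneg
        (fun e he => hedge e (List.mem_toFinset.1 (mem_filter.1 he).1))
        fun e _ _ => DD_nonneg 0 x e ω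
    have h6 := card_nsmul_le_sum (p.edges.toFinset.filter fun e => ω e = true)
      (fun e => DD e f ω) bb fun e he =>
        DD_ge hp hg (mem_filter.1 he).2 (List.mem_toFinset.1 (mem_filter.1 he).1)
    rw [nsmul_eq_mul] at h6
    nlinarith [bb_pos]
  have hhalf : 1 / 2 ≤ (PP _).real {ω | bb * x 0 / 1000 ≤ N ω} := by
    have h1 := (measureReal_mono (μ := PP (Sym2 V)) hcover (measure_ne_top _ _)).trans
      ((measureReal_union_le _ _).trans (add_le_add le_rfl (measureReal_union_le _ _)))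
    rw [probReal_univ] at h1
    linarith
  have hc : 0 ≤ bb * x 0 / 1000 := by have := bb_pos; positivity
  have h1 := markov hNn hN0 (bb * x 0 / 1000)
  have h2 : bb * x 0 / 2000 ≤ ∑ e ∈ stripE t v, ∫ ω, DD e f ω ∂PP _ := by
    rw [← integral_finsetSum _ fun e _ => (hfn.dd e).integrable]
    nlinarith [mul_le_mul_of_nonneg_left hhalf hc]
  have h3 := cov_bound (stripE t v) hfn
  have h4 : 0 ≤ Vr f := integral_nonneg fun ω => sq_nonneg _
  have h5 := mul_le_mul_of_nonneg_right (card_stripE t hv) h4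
  have h6 := mul_le_mul_of_nonneg_left (pow_le_pow_left₀ (by linarith) h2 2)
    (mul_nonneg qq_pos.le (sub_nonneg.2 qq_lt.le))
  linarith

end Pool.Agent.Lib.MP_eba68f_pr
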