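import Pool.Agent.Lib.MP_eba68f_pr.Heavy
import Pool.Agent.Lib.MP_eba68f_pr.Diag

/-! Assembly: the exponent is at most `0` on the diagonal and at least `1/32` in another
direction. -/

namespace Pool.Agent.Lib.MP_eba68f_pr

open MeasureTheory ProbabilityTheory Function Filter SimpleGraph
open scoped NNReal ENNReal

noncomputable def wN (b : Bool) : ℝ≥0 := if b then 1 + 1 / 100000 else 1

lemma coe_wN (b : Bool) : (wN b : ℝ) = wt b := by
  cases b <;> simp [wN, wt, bb]

noncomputable def FF : Measure ℝ≥0 := bern.map wN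

instance FF_prob : IsProbabilityMeasure FF :=
  Measure.isProbabilityMeasure_map (Measurable.of_discrete (f := wN)).aemeasurable

lemma FF_memLp : MemLp (fun t : ℝ≥0 => (t : ℝ)) 2 FF := by
  rw [FF, memLp_map_measure_iff (by fun_prop) (Measurable.of_discrete (f := wN)).aemeasurable]
  refine MemLp.of_bound (Measurable.of_discrete).aestronglyMeasurable 2 (ae_of_all _ fun b => ?_)
  simp only [comp_apply, coe_wN, Real.norm_eq_abs]
  rw [abs_of_nonneg (by linarith [wt_ge b])]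
  linarith [wt_le b, bb_le]

noncomputable def Phi (ω : Om) : (lattice 2).edgeSet → ℝ≥0 := fun e => wN (ω e)

lemma meas_Phi : Measurable Phi :=
  measurable_pi_lambda _ fun _ => (Measurable.of_discrete (f := wN)).comp (measurable_pi_apply _)

lemma map_Phi : (PP (Sym2 V)).map Phi = Measure.infinitePi fun _ : (lattice 2).edgeSet => FF := by
  have h1 := Measure.map_infinitePi_infinitePi_of_inj (P := fun _ : Sym2 V => bern)
    (f := fun e : (lattice 2).edgeSet => (e : Sym2 V)) Subtype.val_injective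
  have h2 := Measure.infinitePi_map_pi (fun _ : (lattice 2).edgeSet => bern)
    (f := fun _ => wN) fun _ => Measurable.of_discrete
  rw [FF, ← h2, ← h1, Measure.map_map]
  · rfl
  · exact measurable_pi_lambda _ fun e =>
      (Measurable.of_discrete (f := wN)).comp (measurable_pi_apply _)
  · fun_prop

lemma passage_Phi (ω : Om) (u v : V) : passage (Phi ω) u v = TT ω u v := by
  unfold passage TT LW
  congr 1
  ext p
  rw [Walk.edges, List.map_map]
  congr 1
  refine List.map_congr_left fun d _ => ?_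
  simp [Phi, coe_wN]

lemma meas_passage (u v : V) : Measurable fun τ : (lattice 2).edgeSet → ℝ≥0 => passage τ u v := by
  refine Measurable.iInf fun p => ?_
  generalize p.darts = l
  induction l with
  | nil => simp
  | cons a l ih =>
    simp only [List.map_cons, List.sum_cons]
    exact (measurable_coe_nnreal_real.comp
      (measurable_pi_apply (⟨a.edge, a.edge_mem⟩ : (lattice 2).edgeSet))).add ih

lemma passVar_eq (x : EuclideanSpace ℝ (Fin 2)) (n : ℕ) :
    passVar FF x n = ENNReal.ofReal (Vr fun ω => TT ω 0 (fun i => ⌊(n : ℝ) * x i⌋)) := by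
  set z : V := fun i => ⌊(n : ℝ) * x i⌋
  have hm := meas_passage 0 z
  have hn := nice_TT 0 z
  have hL : MemLp (fun τ => passage τ 0 z) 2 ((PP (Sym2 V)).map Phi) := by
    rw [memLp_map_measure_iff hm.aestronglyMeasurable meas_Phi.aemeasurable]
    obtain ⟨-, C, hC⟩ := hn
    refine MemLp.of_bound (hm.comp meas_Phi).aestronglyMeasurable C (ae_of_all _ fun ω => ?_)
    simpa [passage_Phi] using hC ω
  have : IsProbabilityMeasure ((PP (Sym2 V)).map Phi) :=
    Measure.isProbabilityMeasure_map meas_Phi.aemeasurable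
  rw [passVar, ← map_Phi, ← ofReal_variance hL, variance_map hm.aemeasurable meas_Phi.aemeasurable,
    variance_eq_integral (hm.comp meas_Phi).aemeasurable]
  simp only [comp_apply, passage_Phi, Vr]

noncomputable def diagDir : EuclideanSpace ℝ (Fin 2) := !₂[(√2)⁻¹, (√2)⁻¹]

lemma norm_diagDir : ‖diagDir‖ = 1 := by
  rw [EuclideanSpace.norm_eq, Fin.sum_univ_two]
  simp [diagDir]
  norm_num

lemma diag_mem {κ : ℝ} (hκ : 0 < κ) :
    limsup (fun n : ℕ => ENNReal.ofReal ((n : ℝ) ^ (-2 * κ)) * passVar FF diagDir n) atTop < ⊤ := by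
  set C := 3 * (2 * 4 ^ κ / κ + 1) with hC
  refine lt_of_le_of_lt (limsup_le_of_le (by isBoundedDefault) ?_)
    (ENNReal.ofReal_lt_top (r := C ^ 2 + 1))
  filter_upwards [eventually_ge_atTop 1] with n hn
  have hn' : (1 : ℝ) ≤ n := by exact_mod_cast hn
  have hs : (1 : ℝ) ≤ √2 := Real.one_le_sqrt.2 (by norm_num)
  set k := ⌊(n : ℝ) * (√2)⁻¹⌋₊ with hk
  have hk1 : (k : ℝ) ≤ n := (Nat.floor_le (by positivity)).trans
    (mul_le_of_le_one_right (by positivity) (inv_le_one_of_one_le₀ hs))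
  have hz : (fun i => ⌊(n : ℝ) * diagDir i⌋) = pt k k := by
    have : ⌊(n : ℝ) * (√2)⁻¹⌋ = (k : ℤ) := (Int.natCast_floor_eq_floor (by positivity)).symm
    exact vext this this
  rw [passVar_eq, hz, ← ENNReal.ofReal_mul (by positivity)]
  refine ENNReal.ofReal_le_ofReal ?_
  have h1 : (1 : ℝ) ≤ (n : ℝ) ^ κ := Real.one_le_rpow hn' hκ.le
  have h2 : (Nat.log 2 (2 * k + 2) : ℝ) ≤ 2 * 4 ^ κ / κ * (n : ℝ) ^ κ := by
    have e1 : ((2 ^ Nat.log 2 (2 * k + 2) : ℕ) : ℝ) ≤ ((2 * k + 2 : ℕ) : ℝ) := by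
      exact_mod_cast Nat.pow_log_le_self 2 (by omega)
    have e2 : ((2 * k + 2 : ℕ) : ℝ) ≤ 4 * n := by push_cast; linarith
    have e3 := Real.log_le_log (by positivity) (e1.trans e2)
    push_cast at e3
    rw [Real.log_pow] at e3
    have e4 := Real.log_le_rpow_div (x := 4 * n) (by positivity) hκ
    rw [Real.mul_rpow (by norm_num) (by positivity)] at e4
    have e5 : (1 / 2 : ℝ) ≤ Real.log 2 := by linarith [Real.log_two_gt_d9]
    have e6 := mul_le_mul_of_nonneg_left e5 (Nat.cast_nonneg (α := ℝ) (Nat.log 2 (2 * k + 2)))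
    have e7 : 2 * 4 ^ κ / κ * (n : ℝ) ^ κ = 2 * (4 ^ κ * (n : ℝ) ^ κ / κ) := by ring
    linarith
  have h3 : 3 * ((Nat.log 2 (2 * k + 2) : ℝ) + 1) ≤ C * (n : ℝ) ^ κ := by
    rw [hC]; nlinarith
  have h4 := pow_le_pow_left₀ (by positivity) h3 2
  have h5 : (n : ℝ) ^ (-2 * κ) * ((n : ℝ) ^ κ) ^ 2 = 1 := by
    rw [← Real.rpow_natCast, ← Real.rpow_mul (by positivity), ← Real.rpow_add (by linarith)]
    simp [mul_comm]
  have h6 : (1 : ℝ) ≤ ((n : ℝ) ^ κ) ^ 2 := one_le_pow₀ h1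
  have h7 : Vr (fun ω => TT ω 0 (pt k k)) ≤ (C ^ 2 + 1) * ((n : ℝ) ^ κ) ^ 2 := by
    have := var_diag k
    rw [mul_pow C] at h4
    linarith
  calc _ ≤ (n : ℝ) ^ (-2 * κ) * ((C ^ 2 + 1) * ((n : ℝ) ^ κ) ^ 2) :=
        mul_le_mul_of_nonneg_left h7 (by positivity)
    _ = (C ^ 2 + 1) * ((n : ℝ) ^ (-2 * κ) * ((n : ℝ) ^ κ) ^ 2) := by ring
    _ = _ := by rw [h5, mul_one]

theorem chi_diag : chi FF diagDir ≤ 0 := by
  refine EReal.le_of_forall_lt_iff_le.1 fun κ hκ => ?_
  exact sInf_le ⟨κ, diag_mem (by exact_mod_cast hκ), rfl⟩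

theorem exists_dir : ∃ y : EuclideanSpace ℝ (Fin 2), ‖y‖ = 1 ∧ ((1 / 32 : ℝ) : EReal) ≤ chi FF y := by
  obtain ⟨t, ht, hvar⟩ := var_lower
  have ht1 : |t| ≤ 1 := by linarith [bb_le]
  have ht2 : t ^ 2 ≤ 1 := by rw [← sq_abs]; nlinarith [abs_nonneg t]
  set c := (√(1 + t ^ 2))⁻¹ with hc
  have hs1 : 1 ≤ √(1 + t ^ 2) := Real.one_le_sqrt.2 (by nlinarith)
  have hs2 : √(1 + t ^ 2) ≤ 2 := Real.sqrt_le_iff.2 ⟨by norm_num, by nlinarith⟩
  have hc1 : c ≤ 1 := inv_le_one_of_one_le₀ hs1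
  have hc2 : 1 / 2 ≤ c := by rw [hc, one_div]; exact inv_anti₀ (by linarith) hs2
  have hcsq : c ^ 2 * (1 + t ^ 2) = 1 := by
    rw [hc, inv_pow, Real.sq_sqrt (by positivity)]; field_simp
  refine ⟨!₂[c, c * t], ?_, ?_⟩
  · rw [EuclideanSpace.norm_eq, Fin.sum_univ_two]
    simp only [Real.norm_eq_abs, sq_abs]
    rw [Real.sqrt_eq_one]
    simp
    linarith
  set y : EuclideanSpace ℝ (Fin 2) := !₂[c, c * t] with hy
  set c₀ := qq * (1 - qq) * (bb / 8000) ^ 2 / (200000 * 2 ^ 31) with hc₀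
  have hc₀pos : 0 < c₀ := by
    have := qq_pos
    have := sub_pos.2 qq_lt
    have := bb_pos
    positivity
  have hlow : ∀ j : ℕ, 3 ≤ j → ENNReal.ofReal (c₀ * j) ≤ passVar FF y (j ^ 16) := by
    intro j hj
    have hj' : (3 : ℝ) ≤ j := by exact_mod_cast hj
    have hN : (8000000 : ℝ) ≤ (j : ℝ) ^ 16 :=
      le_trans (by norm_num) (pow_le_pow_left₀ (by norm_num) hj' 16)
    set N := (j : ℝ) ^ 16 with hNdef
    set x : V := fun i => ⌊((j ^ 16 : ℕ) : ℝ) * y i⌋ with hx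
    have hx0 : x 0 = ⌊N * c⌋ := by simp [hx, hy, hNdef]
    have hx1 : x 1 = ⌊N * (c * t)⌋ := by simp [hx, hy, hNdef]
    have a1 := Int.floor_le (N * c)
    have a2 := Int.lt_floor_add_one (N * c)
    have b1 := Int.floor_le (N * (c * t))
    have b2 := Int.lt_floor_add_one (N * (c * t))
    rw [← hx0] at a1 a2
    rw [← hx1] at b1 b2
    have hNc1 : N * c ≤ N := mul_le_of_le_one_right (by linarith) hc1
    have hNc2 : N / 2 ≤ N * c := by nlinarith
    have ha : N / 4 ≤ x 0 := by linarith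
    obtain ⟨t1, t2⟩ := abs_le.1 ht1
    have hw : |ww t x| ≤ 2 := by
      have e : ww t x = ((x 1 : ℝ) - N * (c * t)) + t * (N * c - x 0) := by unfold ww; ring
      rw [e, abs_le]
      constructor <;> nlinarith
    have hn1 : n1 x ≤ ((2 * j : ℕ) : ℝ) ^ 16 := by
      have e1 : |(x 1 : ℝ)| ≤ N + 1 := by
        rw [abs_le]
        constructor <;> nlinarith
      unfold n1
      rw [abs_of_pos (show (0 : ℝ) < x 0 by linarith)]
      push_cast
      rw [mul_pow, ← hNdef]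
      linarith
    have h1 := hvar (2 * j) (by omega) x (by linarith) hw hn1
    rw [passVar_eq]
    refine ENNReal.ofReal_le_ofReal ?_
    have h2 : bb / 8000 * N ≤ bb * x 0 / 2000 := by nlinarith [bb_pos]
    have h3 := mul_le_mul_of_nonneg_left
      (pow_le_pow_left₀ (by have := bb_pos; positivity) h2 2)
      (mul_nonneg qq_pos.le (sub_nonneg.2 qq_lt.le))
    have h4 := h3.trans h1
    push_cast at h4
    have h5 : (0 : ℝ) < 200000 * (2 * (j : ℝ)) ^ 31 := by positivity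
    refine le_of_mul_le_mul_left (le_trans (le_of_eq ?_) h4) h5
    rw [hc₀, hNdef]
    field_simp
  refine le_sInf ?_
  rintro _ ⟨κ, hκ, rfl⟩
  simp only [Set.mem_ofPred_eq] at hκ
  by_contra hlt
  have hlt : κ < 1 / 32 := EReal.coe_lt_coe_iff.1 (not_le.1 hlt)
  obtain ⟨B, hB1, hB2⟩ := ENNReal.lt_iff_exists_nnreal_btwn.1 hκ
  have h1 := eventually_lt_of_limsup_lt hB1
  have h2 := (tendsto_pow_atTop (α := ℕ) (n := 16) (by norm_num)).eventually h1
  have h3 : Tendsto (fun j : ℕ => c₀ * (j : ℝ) ^ (1 - 32 * κ)) atTop atTop :=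
    ((tendsto_rpow_atTop (by linarith)).comp tendsto_natCast_atTop_atTop).const_mul_atTop hc₀pos
  obtain ⟨j, ⟨e1, e2⟩, e3⟩ := ((h2.and (h3.eventually_gt_atTop B)).and
    (eventually_ge_atTop 3)).exists
  have hj : (0 : ℝ) < j := by exact_mod_cast (show 0 < j by omega)
  have e4 := (mul_le_mul_right (hlow j e3) _).trans_lt e1
  rw [← ENNReal.ofReal_mul (by positivity), ENNReal.ofReal_lt_coe_iff (by positivity)] at e4
  have e5 : (((j ^ 16 : ℕ) : ℝ)) ^ (-2 * κ) * (c₀ * j) = c₀ * (j : ℝ) ^ (1 - 32 * κ) := by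
    push_cast
    rw [← Real.rpow_natCast, ← Real.rpow_mul hj.le, Real.rpow_sub hj, Real.rpow_one,
      show ((16 : ℕ) : ℝ) * (-2 * κ) = -(32 * κ) by push_cast; ring, Real.rpow_neg hj.le]
    ring
  linarith

end Pool.Agent.Lib.MP_eba68f_pr
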