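import Pool.Agent.Lib.MP_eba68f_pr.Defs
import Pool.Agent.Lib.MP_eba68f_pr.Bern

/-! The two-valued planar model: walks, geodesics, basic inequalities. -/

namespace Pool.Agent.Lib.MP_eba68f_pr

open MeasureTheory ProbabilityTheory Filter Function Finset SimpleGraph
open scoped NNReal ENNReal

abbrev V : Type := Fin 2 → ℤ
abbrev G : SimpleGraph V := lattice 2
abbrev Om : Type := Sym2 V → Bool

def pt (a b : ℤ) : V := ![a, b]

@[simp] lemma pt_zero (a b : ℤ) : pt a b 0 = a := rfl
@[simp] lemma pt_one (a b : ℤ) : pt a b 1 = b := rfl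

lemma vext {u v : V} (h0 : u 0 = v 0) (h1 : u 1 = v 1) : u = v := by
  ext i; fin_cases i <;> assumption

lemma vext_iff {u v : V} : u = v ↔ u 0 = v 0 ∧ u 1 = v 1 :=
  ⟨fun h => by simp [h], fun h => vext h.1 h.2⟩

lemma adj_iff {u v : V} : G.Adj u v ↔
    (v 0 = u 0 + 1 ∧ v 1 = u 1) ∨ (v 0 = u 0 - 1 ∧ v 1 = u 1) ∨
    (v 0 = u 0 ∧ v 1 = u 1 + 1) ∨ (v 0 = u 0 ∧ v 1 = u 1 - 1) := by
  show ∑ i, |u i - v i| = 1 ↔ _
  rw [Fin.sum_univ_two]
  rcases abs_cases (u 0 - v 0) with h | h <;> rcases abs_cases (u 1 - v 1) with h' | h' <;> omega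

def nb (u : V) : Finset V :=
  {pt (u 0 + 1) (u 1), pt (u 0 - 1) (u 1), pt (u 0) (u 1 + 1), pt (u 0) (u 1 - 1)}

lemma mem_nb {u v : V} : v ∈ nb u ↔ G.Adj u v := by
  simp only [nb, mem_insert, mem_singleton, adj_iff, vext_iff, pt_zero, pt_one]

instance locFin : G.LocallyFinite := fun u =>
  Fintype.ofFinset (nb u) fun _ => by rw [mem_nb, mem_neighborSet]

instance walkCountable (u v : V) : Countable (G.Walk u v) :=
  (Walk.support_injective (G := G) (u := u) (v := v)).countable

noncomputable def n1 (z : V) : ℝ := |(z 0 : ℝ)| + |(z 1 : ℝ)|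

lemma n1_nonneg (z : V) : 0 ≤ n1 z := by unfold n1; positivity

lemma n1_sub_comm (u v : V) : n1 (u - v) = n1 (v - u) := by
  simp only [n1, Pi.sub_apply, Int.cast_sub]
  rw [abs_sub_comm (u 0 : ℝ), abs_sub_comm (u 1 : ℝ)]

lemma n1_add_le (u v : V) : n1 (u + v) ≤ n1 u + n1 v := by
  simp only [n1, Pi.add_apply, Int.cast_add]
  linarith [abs_add_le (u 0 : ℝ) (v 0), abs_add_le (u 1 : ℝ) (v 1)]

lemma n1_adj {u v : V} (h : G.Adj u v) : n1 (v - u) = 1 := by
  simp only [n1, Pi.sub_apply, Int.cast_sub]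
  rcases adj_iff.1 h with ⟨h0, h1⟩ | ⟨h0, h1⟩ | ⟨h0, h1⟩ | ⟨h0, h1⟩ <;> simp [h0, h1]

lemma n1_le_length {u v : V} (p : G.Walk u v) : n1 (v - u) ≤ p.length := by
  induction p with
  | nil => simp [n1]
  | @cons a b c h p ih =>
    have := n1_add_le (b - a) (c - b)
    rw [show b - a + (c - b) = c - a by abel, n1_adj h] at this
    simp only [Walk.length_cons, Nat.cast_add, Nat.cast_one]
    linarith

lemma exists_walk_aux (n : ℕ) : ∀ u v : V, (v 0 - u 0).natAbs + (v 1 - u 1).natAbs = n →
    ∃ p : G.Walk u v, p.length = n := by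
  induction n with
  | zero =>
    intro u v h
    have : u = v := vext (by omega) (by omega)
    subst this
    exact ⟨Walk.nil, rfl⟩
  | succ n ih =>
    intro u v h
    have : ∃ w, G.Adj u w ∧ (v 0 - w 0).natAbs + (v 1 - w 1).natAbs = n := by
      rcases lt_trichotomy (u 0) (v 0) with h0 | h0 | h0
      · exact ⟨pt (u 0 + 1) (u 1), by simp [adj_iff], by simp only [pt_zero, pt_one]; omega⟩
      · rcases lt_trichotomy (u 1) (v 1) with h1 | h1 | h1
        · exact ⟨pt (u 0) (u 1 + 1), by simp [adj_iff], by simp only [pt_zero, pt_one]; omega⟩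
        · omega
        · exact ⟨pt (u 0) (u 1 - 1), by simp [adj_iff], by simp only [pt_zero, pt_one]; omega⟩
      · exact ⟨pt (u 0 - 1) (u 1), by simp [adj_iff], by simp only [pt_zero, pt_one]; omega⟩
    obtain ⟨w, hw, hn⟩ := this
    obtain ⟨p, hp⟩ := ih w v hn
    exact ⟨Walk.cons hw p, by simp [hp]⟩

lemma exists_walk (u v : V) : ∃ p : G.Walk u v, (p.length : ℝ) = n1 (v - u) := by
  obtain ⟨p, hp⟩ := exists_walk_aux _ u v rfl
  refine ⟨p, ?_⟩
  rw [hp]
  simp [n1, Nat.cast_natAbs]

instance walkNonempty (u v : V) : Nonempty (G.Walk u v) := ⟨(exists_walk u v).choose⟩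

noncomputable def bb : ℝ := 1 / 100000

lemma bb_pos : 0 < bb := by norm_num [bb]
lemma bb_le : bb ≤ 1 / 100000 := le_rfl

noncomputable def wt (b : Bool) : ℝ := if b then 1 + bb else 1

lemma wt_ge (b : Bool) : 1 ≤ wt b := by
  cases b <;> simp [wt, bb_pos.le]

lemma wt_le (b : Bool) : wt b ≤ 1 + bb := by
  cases b <;> simp [wt, bb_pos.le]

noncomputable def LW (ω : Om) (l : List (Sym2 V)) : ℝ := (l.map fun e => wt (ω e)).sum

@[simp] lemma LW_nil (ω : Om) : LW ω [] = 0 := rfl
@[simp] lemma LW_cons (ω : Om) (e : Sym2 V) (l : List (Sym2 V)) :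
    LW ω (e :: l) = wt (ω e) + LW ω l := by simp [LW]
lemma LW_append (ω : Om) (l l' : List (Sym2 V)) : LW ω (l ++ l') = LW ω l + LW ω l' := by
  simp [LW]

lemma LW_ge (ω : Om) (l : List (Sym2 V)) : (l.length : ℝ) ≤ LW ω l := by
  induction l with
  | nil => simp
  | cons e l ih => simp only [LW_cons, List.length_cons, Nat.cast_add, Nat.cast_one]; linarith [wt_ge (ω e)]

lemma LW_le (ω : Om) (l : List (Sym2 V)) : LW ω l ≤ (1 + bb) * l.length := by
  induction l with
  | nil => simp
  | cons e l ih => simp only [LW_cons, List.length_cons, Nat.cast_add, Nat.cast_one]; linarith [wt_le (ω e)]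

lemma LW_sublist (ω : Om) {l l' : List (Sym2 V)} (h : l.Sublist l') : LW ω l ≤ LW ω l' := by
  induction h with
  | slnil => simp
  | cons a _ ih => simp only [LW_cons]; linarith [wt_ge (ω a)]
  | cons_cons a _ ih => simp only [LW_cons]; linarith

lemma LW_congr {ω ω' : Om} {l : List (Sym2 V)} (h : ∀ e ∈ l, ω e = ω' e) : LW ω l = LW ω' l := by
  unfold LW
  rw [List.map_congr_left fun e he => by rw [h e he]]

lemma LW_upd (ω : Om) (e : Sym2 V) (b : Bool) {l : List (Sym2 V)} (hl : l.Nodup) :
    LW (update ω e b) l = LW ω l + if e ∈ l then wt b - wt (ω e) else 0 := by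
  induction l with
  | nil => simp
  | cons a l ih =>
    rw [List.nodup_cons] at hl
    rw [LW_cons, LW_cons, ih hl.2]
    by_cases h : a = e
    · subst h
      simp [hl.1]
      ring
    · have h' : ¬ e = a := fun hh => h hh.symm
      rw [update_of_ne h]
      simp only [List.mem_cons, h', false_or]
      ring

lemma meas_LW (l : List (Sym2 V)) : Measurable fun ω => LW ω l := by
  induction l with
  | nil => simp
  | cons a l ih =>
    simp only [LW_cons]
    exact (Nice.coord a wt).1.add ih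

noncomputable def TT (ω : Om) (u v : V) : ℝ := ⨅ p : G.Walk u v, LW ω p.edges

lemma TT_le (ω : Om) {u v : V} (p : G.Walk u v) : TT ω u v ≤ LW ω p.edges :=
  ciInf_le ⟨0, by rintro _ ⟨p, rfl⟩; exact (Nat.cast_nonneg _).trans (LW_ge ω _)⟩ p

lemma TT_ge (ω : Om) (u v : V) : n1 (v - u) ≤ TT ω u v :=
  le_ciInf fun p => (n1_le_length p).trans (by simpa using LW_ge ω p.edges)

lemma TT_up (ω : Om) (u v : V) : TT ω u v ≤ (1 + bb) * n1 (v - u) := by
  obtain ⟨p, hp⟩ := exists_walk u v
  rw [← hp]
  exact (TT_le ω p).trans (by simpa using LW_le ω p.edges)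

lemma TT_up2 (ω : Om) (u v : V) : TT ω u v ≤ 2 * n1 (v - u) :=
  (TT_up ω u v).trans (mul_le_mul_of_nonneg_right (by linarith [bb_le]) (n1_nonneg _))

lemma exists_geo (ω : Om) (u v : V) : ∃ p : G.Walk u v, p.IsPath ∧ LW ω p.edges = TT ω u v := by
  obtain ⟨p₀, hp₀⟩ := exists_walk u v
  obtain ⟨p, hp, hmin⟩ := exists_min_image (G.finsetWalkLengthLT (2 * p₀.length + 1) u v)
    (fun p => LW ω p.edges) ⟨p₀, by rw [mem_finsetWalkLengthLT_iff]; omega⟩
  have hall : ∀ p' : G.Walk u v, LW ω p.edges ≤ LW ω p'.edges := by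
    intro p'
    by_cases h : p'.length < 2 * p₀.length + 1
    · exact hmin p' (mem_finsetWalkLengthLT_iff.2 h)
    · have h1 := hmin p₀ (by rw [mem_finsetWalkLengthLT_iff]; omega)
      have h2 := LW_le ω p₀.edges
      have h3 := LW_ge ω p'.edges
      rw [Walk.length_edges] at h2 h3
      have h4 : ((2 * p₀.length + 1 : ℕ) : ℝ) ≤ p'.length := by exact_mod_cast not_lt.1 h
      push_cast at h4
      have h5 : (1 + bb) * (p₀.length : ℝ) ≤ 2 * p₀.length :=
        mul_le_mul_of_nonneg_right (by linarith [bb_le]) (Nat.cast_nonneg _)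
      linarith
  refine ⟨p.bypass, p.bypass_isPath, le_antisymm ?_ (TT_le ω _)⟩
  exact (LW_sublist ω p.edges_bypass_sublist_edges).trans (le_ciInf hall)

lemma geo_length {ω : Om} {u v : V} {p : G.Walk u v} (hp : LW ω p.edges = TT ω u v) :
    (p.length : ℝ) ≤ (1 + bb) * n1 (v - u) := by
  have := LW_ge ω p.edges
  rw [Walk.length_edges, hp] at this
  exact this.trans (TT_up ω u v)

lemma nice_TT (u v : V) : Nice fun ω => TT ω u v := by
  refine ⟨Measurable.iInf fun p => meas_LW _, 2 * n1 (v - u), fun ω => ?_⟩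
  show |TT ω u v| ≤ _
  rw [abs_of_nonneg ((n1_nonneg _).trans (TT_ge ω u v))]
  exact TT_up2 ω u v

lemma TT_tri (ω : Om) (u v w : V) : TT ω u w ≤ TT ω u v + TT ω v w := by
  obtain ⟨p, -, hp⟩ := exists_geo ω u v
  obtain ⟨q, -, hq⟩ := exists_geo ω v w
  rw [← hp, ← hq, ← LW_append, ← Walk.edges_append]
  exact TT_le ω _

lemma TT_split (ω : Om) {u v z : V} (p : G.Walk u v) (hz : z ∈ p.support) :
    TT ω u z + TT ω z v ≤ LW ω p.edges := by
  conv_rhs => rw [← p.take_spec hz, Walk.edges_append, LW_append]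
  exact add_le_add (TT_le ω _) (TT_le ω _)

lemma exists_dep (u v : V) : ∃ S : Finset (Sym2 V),
    ∀ ω ω' : Om, (∀ e ∈ S, ω e = ω' e) → TT ω u v = TT ω' u v := by
  obtain ⟨N, hN⟩ := exists_nat_gt ((1 + bb) * n1 (v - u))
  refine ⟨(G.finsetWalkLengthLT N u v).biUnion fun p => p.edges.toFinset, ?_⟩
  have key : ∀ ω ω' : Om, (∀ e ∈ (G.finsetWalkLengthLT N u v).biUnion fun p => p.edges.toFinset,
      ω e = ω' e) → TT ω u v ≤ TT ω' u v := by
    intro ω ω' h
    obtain ⟨p, -, hp⟩ := exists_geo ω' u v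
    have hl : p.length < N := by exact_mod_cast (geo_length hp).trans_lt hN
    rw [← hp, ← LW_congr (ω := ω) fun e he => h e ?_]
    · exact TT_le ω p
    · exact mem_biUnion.2 ⟨p, mem_finsetWalkLengthLT_iff.2 hl, List.mem_toFinset.2 he⟩
  exact fun ω ω' h => le_antisymm (key _ _ h) (key _ _ fun e he => (h e he).symm)

lemma DD_nonneg (u v : V) (e : Sym2 V) (ω : Om) : 0 ≤ DD e (fun ω => TT ω u v) ω := by
  obtain ⟨p, hp, hg⟩ := exists_geo (update ω e true) u v
  have h1 := TT_le (update ω e false) p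
  have h2 := LW_upd (update ω e true) e false hp.isTrail.edges_nodup
  rw [update_idem] at h2
  simp only [DD, update_self] at h2 ⊢
  split_ifs at h2
  · simp only [wt, if_true, Bool.false_eq_true, if_false] at h2
    linarith [bb_pos]
  · linarith

lemma DD_le {u v : V} {e : Sym2 V} {ω : Om} {p : G.Walk u v} (hp : p.IsPath)
    (hg : LW ω p.edges = TT ω u v) (he : ω e = false) :
    DD e (fun ω => TT ω u v) ω ≤ if e ∈ p.edges then bb else 0 := by
  have h1 := TT_le (update ω e true) p
  have h2 := LW_upd ω e true hp.isTrail.edges_nodup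
  have h3 : update ω e false = ω := by rw [← he, update_eq_self]
  simp only [DD, h3]
  rw [he] at h2
  split_ifs at h2 ⊢
  · simp only [wt, if_true, Bool.false_eq_true, if_false] at h2
    linarith
  · linarith

lemma DD_ge {u v : V} {e : Sym2 V} {ω : Om} {p : G.Walk u v} (hp : p.IsPath)
    (hg : LW ω p.edges = TT ω u v) (he : ω e = true) (hm : e ∈ p.edges) :
    bb ≤ DD e (fun ω => TT ω u v) ω := by
  have h1 := TT_le (update ω e false) p
  have h2 := LW_upd ω e false hp.isTrail.edges_nodup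
  have h3 : update ω e true = ω := by rw [← he, update_eq_self]
  simp only [DD, h3]
  rw [he, if_pos hm] at h2
  simp only [wt, if_true, Bool.false_eq_true, if_false] at h2
  linarith

theorem Vr_TT_le (u v : V) : Vr (fun ω => TT ω u v) ≤ n1 (v - u) := by
  obtain ⟨S, hS⟩ := exists_dep u v
  have h1 := efron_stein S (nice_TT u v) hS
  set f : Om → ℝ := fun ω => TT ω u v with hf
  have hn : ∀ e, Nice fun ω : Om => DD e f ω ^ 2 * (if ω e then 0 else 1) := fun e =>
    ((nice_TT u v).dd e).sq.mul (Nice.coord e fun b => if b then 0 else 1)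
  have h2 : ∀ e, (1 - qq) * ∫ ω, DD e f ω ^ 2 ∂PP _ =
      ∫ ω, DD e f ω ^ 2 * (if ω e then 0 else 1) ∂PP _ := by
    intro e
    rw [int_upd (hn e) e, ← integral_const_mul]
    congr 1
    ext ω
    simp [DD_upd]
  have h3 : ∀ ω : Om, ∑ e ∈ S, DD e f ω ^ 2 * (if ω e then 0 else 1) ≤ n1 (v - u) := by
    intro ω
    obtain ⟨p, hp, hg⟩ := exists_geo ω u v
    have h4 : ∀ e ∈ S, DD e f ω ^ 2 * (if ω e then 0 else 1) ≤
        if e ∈ p.edges.toFinset then bb ^ 2 else 0 := by
      intro e _
      cases he : ω e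
      · have h5 := DD_le hp hg he
        have h6 := DD_nonneg u v e ω
        simp only [Bool.false_eq_true, if_false, mul_one, List.mem_toFinset]
        split_ifs at h5 ⊢
        · exact pow_le_pow_left₀ h6 h5 2
        · rw [le_antisymm h5 h6]; simp
      · simp only [if_true, mul_zero]
        positivity
    refine (sum_le_sum h4).trans ?_
    rw [← sum_filter, sum_const, nsmul_eq_mul]
    have h5 : ((S.filter fun e => e ∈ p.edges.toFinset).card : ℝ) ≤ p.length := by
      have : (S.filter fun e => e ∈ p.edges.toFinset).card ≤ p.edges.toFinset.card :=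
        card_le_card fun e he => (mem_filter.1 he).2
      have h6 := List.toFinset_card_le p.edges
      rw [Walk.length_edges] at h6
      exact_mod_cast this.trans h6
    have h6 := geo_length hg
    have h7 := n1_nonneg (v - u)
    have h8 : bb ^ 2 * (1 + bb) ≤ 1 := by norm_num [bb]
    calc _ ≤ (1 + bb) * n1 (v - u) * bb ^ 2 :=
          mul_le_mul_of_nonneg_right (h5.trans h6) (sq_nonneg _)
      _ = bb ^ 2 * (1 + bb) * n1 (v - u) := by ring
      _ ≤ 1 * n1 (v - u) := mul_le_mul_of_nonneg_right h8 h7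
      _ = _ := one_mul _
  have h4 : (1 - qq) * ∑ e ∈ S, ∫ ω, DD e f ω ^ 2 ∂PP _ ≤ n1 (v - u) := by
    rw [mul_sum, sum_congr rfl fun e _ => h2 e, ← integral_finsetSum _ fun e _ => (hn e).integrable]
    refine (integral_mono (Nice.sum S fun e _ => hn e).integrable
      (Nice.const (n1 (v - u))).integrable h3).trans (by simp)
  have h5 := mul_le_mul_of_nonneg_left h4 qq_pos.le
  have h6 := mul_le_mul_of_nonneg_right qq_lt.le (n1_nonneg (v - u))
  nlinarith

/-- translation as a graph homomorphism -/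
def transl (a : V) : G →g G where
  toFun z := z + a
  map_rel' := by
    intro u v h
    rw [adj_iff] at h ⊢
    simp only [Pi.add_apply]
    omega

def shift (a : V) (ω : Om) : Om := fun e => ω (Sym2.map (· + a) e)

lemma TT_shift_le (a : V) (ω : Om) (u v : V) : TT ω (u + a) (v + a) ≤ TT (shift a ω) u v := by
  obtain ⟨p, -, hp⟩ := exists_geo (shift a ω) u v
  have := TT_le ω (p.map (transl a))
  rw [Walk.edges_map] at this
  rw [← hp]
  refine this.trans_eq ?_
  simp only [LW, List.map_map]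
  rfl

lemma TT_shift (a : V) (ω : Om) (u v : V) : TT (shift a ω) u v = TT ω (u + a) (v + a) := by
  refine le_antisymm ?_ (TT_shift_le a ω u v)
  have h := TT_shift_le (-a) (shift a ω) (u + a) (v + a)
  have h2 : shift (-a) (shift a ω) = ω := by
    ext e
    simp only [shift, Sym2.map_map]
    congr 1
    induction e using Sym2.ind with
    | h x y => simp
  rw [h2] at h
  simpa using h

lemma map_shift (a : V) : (PP (Sym2 V)).map (shift a) = PP (Sym2 V) :=
  Measure.map_infinitePi_infinitePi_of_inj (P := fun _ : Sym2 V => bern)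
    (f := Sym2.map (· + a)) (Sym2.map.injective (add_left_injective a))

noncomputable def mm (z : V) : ℝ := ∫ ω, TT ω 0 z ∂PP _

lemma int_TT (u v : V) : ∫ ω, TT ω u v ∂PP _ = mm (v - u) := by
  have hs : Measurable (shift u) := by unfold shift; fun_prop
  unfold mm
  conv_rhs => rw [← map_shift u]
  rw [integral_map hs.aemeasurable (nice_TT _ _).1.aestronglyMeasurable]
  simp [TT_shift]

lemma mm_ge (z : V) : n1 z ≤ mm z := by
  have := integral_mono (μ := PP (Sym2 V)) (Nice.const (n1 (z - 0))).integrable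
    (nice_TT 0 z).integrable fun ω => TT_ge ω 0 z
  simpa [mm] using this

lemma mm_le (z : V) : mm z ≤ (1 + bb) * n1 z := by
  have := integral_mono (μ := PP (Sym2 V)) (nice_TT 0 z).integrable
    (Nice.const ((1 + bb) * n1 (z - 0))).integrable fun ω => TT_up ω 0 z
  simpa [mm] using this

lemma mm_add (y z : V) : mm (y + z) ≤ mm y + mm z := by
  have := integral_mono (μ := PP (Sym2 V)) (nice_TT 0 (y + z)).integrable
    ((nice_TT 0 y).add (nice_TT y (y + z))).integrable fun ω => TT_tri ω 0 y (y + z)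
  rw [integral_add (nice_TT 0 y).integrable (nice_TT y (y + z)).integrable, int_TT, int_TT,
    int_TT] at this
  simpa using this

/-- generating function bound for walks of a given length -/
lemma walk_sum (c : V → V → ℝ) (hc : ∀ u v, 0 ≤ c u v) (K : ℝ)
    (hK : ∀ u : V, c u (pt (u 0 + 1) (u 1)) + c u (pt (u 0 - 1) (u 1)) + c u (pt (u 0) (u 1 + 1)) +
      c u (pt (u 0) (u 1 - 1)) ≤ K) (n : ℕ) (v : V) : ∀ u : V,
    ∑ p ∈ G.finsetWalkLength n u v, (p.darts.map fun d => c d.fst d.snd).prod ≤ K ^ n := by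
  have hK0 : 0 ≤ K := le_trans (add_nonneg (add_nonneg (add_nonneg (hc _ _) (hc _ _)) (hc _ _)) (hc _ _)) (hK 0)
  induction n with
  | zero =>
    intro u
    unfold finsetWalkLength
    split_ifs with h
    · subst h; simp
    · simp
  | succ n ih =>
    intro u
    unfold finsetWalkLength
    rw [sum_biUnion]
    · simp only [sum_map, Embedding.coeFn_mk, Walk.darts_cons, List.map_cons, List.prod_cons,
        ← mul_sum]
      calc _ ≤ ∑ w : G.neighborSet u, c u w * K ^ n :=
            sum_le_sum fun w _ => mul_le_mul_of_nonneg_left (ih w) (hc _ _)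
        _ = (∑ w ∈ nb u, c u w) * K ^ n := by
            rw [← sum_mul]
            congr 1
            exact (sum_subtype (nb u) (fun w => by rw [mem_nb, mem_neighborSet]) (c u)).symm
        _ ≤ K * K ^ n := by
            refine mul_le_mul_of_nonneg_right (le_trans (le_of_eq ?_) (hK u)) (by positivity)
            unfold nb
            rw [sum_insert, sum_insert, sum_insert, sum_singleton]
            · ring
            all_goals simp only [mem_insert, mem_singleton, vext_iff, pt_zero, pt_one]; omega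
        _ = K ^ (n + 1) := by ring
    · intro w _ w' _ hne
      rw [Function.onFun, Finset.disjoint_left]
      intro p hp hp'
      simp only [Finset.mem_map, Embedding.coeFn_mk] at hp hp'
      obtain ⟨q, -, rfl⟩ := hp
      obtain ⟨q', -, h⟩ := hp'
      apply hne
      have := congrArg Walk.snd h
      simp only [Walk.snd_cons] at this
      exact Subtype.ext this.symm

lemma card_walks (n : ℕ) (u v : V) : ((G.finsetWalkLength n u v).card : ℝ) ≤ 4 ^ n := by
  have := walk_sum (fun _ _ => 1) (fun _ _ => zero_le_one) 4 (fun _ => by norm_num) n v u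
  simpa using this

end Pool.Agent.Lib.MP_eba68f_pr
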